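import Pool.Agent.Q16.LC.Hist

/-!
# Branches

To every `u` in the lattice we attach a set `K u` of branches (maps `ℕ → ℕ`) with a distinguished
member `c u`. The results `ss`, `gg`, `oo` are the combinatorial core.
-/

set_option autoImplicit false
set_option linter.unusedSectionVars false

namespace Pool.Agent.Q16.LC

/-- the list of the first `n` values -/
def pre (ζ : ℕ → ℕ) (n : ℕ) : List ℕ := (List.range n).map ζ

lemma pre_length (ζ : ℕ → ℕ) (n : ℕ) : (pre ζ n).length = n := by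
  unfold pre
  rw [List.length_map, List.length_range]

lemma pre_congr {ζ ξ : ℕ → ℕ} {n : ℕ} (h : ∀ t < n, ζ t = ξ t) : pre ζ n = pre ξ n :=
  List.map_congr_left fun t ht => h t (List.mem_range.1 ht)

lemma pre_inj {ζ ξ : ℕ → ℕ} {n : ℕ} (h : pre ζ n = pre ξ n) : ∀ t < n, ζ t = ξ t :=
  fun t ht => List.map_inj_left.1 h t (List.mem_range.2 ht)

lemma pre_take (ζ : ℕ → ℕ) {n m : ℕ} (h : m ≤ n) : (pre ζ n).take m = pre ζ m := by
  unfold pre
  rw [← List.map_take, List.take_range, min_eq_left h]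

/-- codes of the nonblank entries -/
def enc (l : List (ℕ × List ℕ)) : ℕ := Encodable.encode l + 1

lemma enc_inj {l l' : List (ℕ × List ℕ)} (h : enc l = enc l') : l = l' :=
  Encodable.encode_injective (Nat.succ_injective h)

lemma enc_ne_zero (l : List (ℕ × List ℕ)) : enc l ≠ 0 := Nat.succ_ne_zero _

variable {L Ω : Type} [Lattice L] [BoundedOrder L] [WellFoundedLT L] [WellFoundedGT L]
  [LinearOrder Ω] [WellFoundedLT Ω] (F : Filt L Ω)

namespace Filt

/-- The branch `ζ` is blank before `t0` and shows the code of `x` from then on. -/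
def Wit (ζ : ℕ → ℕ) (x : L) (t0 : ℕ) : Prop :=
  F.st x ≤ t0 ∧ (∀ t < t0, ζ t = 0) ∧ ∀ t, t0 ≤ t → ∃ l, ζ t = enc (l ++ F.code x t)

/-- the branches of `u` -/
def K (u : L) (ζ : ℕ → ℕ) : Prop := (∀ t, ζ t = 0) ∨ ∃ x t0, F.Base u x ∧ F.Wit ζ x t0

/-- the distinguished branch of `u` -/
noncomputable def c (u : L) (t : ℕ) : ℕ := if t < F.st u then 0 else enc (F.code u t)

/-- the initial segments of the branches of `u` -/
def T (u : L) (s : List ℕ) : Prop := ∃ ζ, F.K u ζ ∧ s = pre ζ s.length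

/-- the bound of `w` -/
noncomputable def kk (w : L) : ℕ := ((F.dnl w).map F.idx).sum

/-- the enlarged tree of `u` -/
def Tp (u : L) (s : List ℕ) : Prop := F.T u s ∨ s.length ≤ F.kk u

/-- the tokens `s1` and `s2` together force `τ` -/
def E (s1 s2 τ : List ℕ) : Prop := ∀ w, F.Tp w s1 → F.Tp w s2 → F.Tp w τ

lemma T_blank (u : L) {ζ : ℕ → ℕ} {n : ℕ} (h : ∀ t < n, ζ t = 0) : F.T u (pre ζ n) := by
  refine ⟨fun _ => 0, Or.inl fun _ => rfl, ?_⟩
  rw [pre_length]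
  exact pre_congr h

lemma T_pre {u : L} {ζ : ℕ → ℕ} (h : F.K u ζ) (n : ℕ) : F.T u (pre ζ n) :=
  ⟨ζ, h, by rw [pre_length]⟩

lemma T_take {u : L} {s : List ℕ} (h : F.T u s) (n : ℕ) : F.T u (s.take n) := by
  obtain ⟨ζ, hζ, hs⟩ := h
  rcases le_total n s.length with h1 | h1
  · rw [hs, pre_take ζ h1]
    exact F.T_pre hζ n
  · rw [List.take_of_length_le h1]
    exact ⟨ζ, hζ, hs⟩

lemma Tp_take {u : L} {s : List ℕ} (h : F.Tp u s) (n : ℕ) : F.Tp u (s.take n) := by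
  rcases h with h | h
  · exact Or.inl (F.T_take h n)
  · right
    rw [List.length_take]
    exact (min_le_right _ _).trans h

variable {F}

lemma Wit.up {ζ : ℕ → ℕ} {x y : L} {t0 : ℕ} (h : F.Wit ζ x t0) (hy : y ∈ F.upl x) :
    F.Wit ζ y t0 := by
  refine ⟨(F.st_le hy).trans h.1, h.2.1, fun t ht => ?_⟩
  obtain ⟨l, hl⟩ := h.2.2 t ht
  obtain ⟨l', hl'⟩ := chain_suffix _ _ hy
  refine ⟨l ++ l'.map (F.ft (F.H t)), ?_⟩
  rw [hl, List.append_assoc]
  unfold code
  rw [← List.map_append]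
  have : F.upl x = l' ++ F.upl y := hl'.symm
  rw [this]

lemma Wit.K_of_le {ζ : ℕ → ℕ} {x u : L} {t0 : ℕ} (h : F.Wit ζ x t0) (hx : x ≤ u) : F.K u ζ := by
  obtain ⟨y, hy, hb⟩ := F.base_of_le hx
  exact Or.inr ⟨y, t0, hb, h.up hy⟩

variable (F)

lemma K_mono {u v : L} (h : u ≤ v) {ζ : ℕ → ℕ} (hζ : F.K u ζ) : F.K v ζ := by
  rcases hζ with h1 | ⟨x, t0, hb, hw⟩
  · exact Or.inl h1
  · exact hw.K_of_le ((F.le_of_base hb).trans h)

lemma c_wit (u : L) : F.Wit (F.c u) u (F.st u) := by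
  refine ⟨le_rfl, fun t ht => if_pos ht, fun t ht => ⟨[], ?_⟩⟩
  rw [List.nil_append]
  exact if_neg (not_lt.2 ht)

lemma c_mem (u : L) : F.K u (F.c u) := Or.inr ⟨u, F.st u, F.base_self u, F.c_wit u⟩

/-! ### Separation -/

lemma exists_sep (γ β : Ω) : ∃ n, γ ≠ β → ∀ t, n ≤ t → F.H t γ ≠ F.H t β := by
  by_cases h : γ = β
  · exact ⟨0, fun h' => absurd h h'⟩
  · obtain ⟨n, hn⟩ := F.H_sep h
    exact ⟨n, fun _ => hn⟩

/-- a time after which the histories of the two levels are different -/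
noncomputable def sg (γ β : Ω) : ℕ := (F.exists_sep γ β).choose

lemma sg_spec {γ β : Ω} (h : γ ≠ β) {t : ℕ} (ht : F.sg γ β ≤ t) : F.H t γ ≠ F.H t β :=
  (F.exists_sep γ β).choose_spec h t ht

lemma sep_list (A B : List Ω) : ∃ M, ∀ α ∈ A, ∀ β ∈ B, ∀ t, M ≤ t → F.H t α = F.H t β → α = β := by
  refine ⟨(A.map fun α => (B.map fun β => F.sg α β).sum).sum, ?_⟩
  intro α hα β hβ t ht he
  by_contra hne
  refine F.sg_spec hne (le_trans ?_ ht) he
  refine le_trans (List.le_sum_of_mem (List.mem_map.2 ⟨β, hβ, rfl⟩)) ?_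
  exact List.le_sum_of_mem (List.mem_map.2 ⟨α, hα, rfl⟩)

lemma sep_level (α β : Ω) : ∃ n0, ∀ x, F.lev x = α → ∀ y ∈ F.upl x, ∀ t, n0 ≤ t → F.st x ≤ t →
    F.H t (F.lev y) = F.H t β → F.lev y = β := by
  obtain ⟨J, hJ⟩ := F.trace_sep α β
  obtain ⟨M, hM⟩ := F.sep_list ((List.range J).flatMap fun i => F.ulev α i) [β]
  refine ⟨M, fun x hx y hy t ht hst he => ?_⟩
  by_contra hne
  rcases lt_or_ge (F.idx x) J with h | h
  · refine hne (hM (F.lev y) ?_ β (List.mem_singleton_self β) t ht he)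
    rw [List.mem_flatMap]
    refine ⟨F.idx x, List.mem_range.2 h, ?_⟩
    unfold ulev
    rw [← hx, F.elt_self x]
    exact List.mem_map.2 ⟨y, hy, rfl⟩
  · obtain ⟨n, hn, hn'⟩ := hJ x hx h y hy hne
    exact hn' (F.H_trace he (hn.trans_le hst))

lemma sep_base (u v : L) : ∃ n0, ∀ x x', F.Base u x → F.Base v x' → ∀ y ∈ F.upl x, ∀ t, n0 ≤ t →
    F.st x ≤ t → F.H t (F.lev y) = F.H t (F.lev x') → F.lev y = F.lev x' := by
  choose n hn using fun α β => F.sep_level α β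
  refine ⟨((F.dnl u).map fun a => ((F.dnl v).map fun b => n (F.lev a) (F.lev b)).sum).sum, ?_⟩
  rintro x x' ⟨a, ha, hxa, -⟩ ⟨b, hb, hxb, -⟩ y hy t ht hst he
  rw [hxb] at he ⊢
  refine hn (F.lev a) (F.lev b) x hxa y hy t (le_trans ?_ ht) hst he
  have h1 : n (F.lev a) (F.lev b) ≤ ((F.dnl v).map fun b => n (F.lev a) (F.lev b)).sum :=
    List.le_sum_of_mem (List.mem_map.2 ⟨b, hb, rfl⟩)
  have h2 : ((F.dnl v).map fun b => n (F.lev a) (F.lev b)).sum ≤
      ((F.dnl u).map fun a => ((F.dnl v).map fun b => n (F.lev a) (F.lev b)).sum).sum :=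
    List.le_sum_of_mem (List.mem_map.2 ⟨a, ha, rfl⟩)
  exact h1.trans h2

lemma code_ne_nil (x : L) (t : ℕ) : F.code x t ≠ [] := by
  intro h
  exact chain_ne_nil _ _ x (List.map_eq_nil_iff.1 h)

lemma suffix_code {x x' : L} {t : ℕ} (h : F.code x' t <:+ F.code x t) :
    ∃ z ∈ F.upl x, F.idx z = F.idx x' ∧ F.H t (F.lev z) = F.H t (F.lev x') := by
  obtain ⟨z, hz, hz'⟩ := chain_of_suffix_map F.lev F.up (F.ft (F.H t)) (F.code_ne_nil x' t) h
  have h1 := chain_map_head F.lev F.up (F.ft (F.H t)) (F.ft (F.H t)) hz'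
  exact ⟨z, hz, ((Prod.mk.inj h1).1).symm, ((Prod.mk.inj h1).2).symm⟩

lemma suffix_base (u v : L) : ∃ n0, ∀ x x' t, F.Base u x → F.Base v x' → n0 ≤ t → F.st x ≤ t →
    F.code x' t <:+ F.code x t → x' ∈ F.upl x := by
  obtain ⟨n0, hn0⟩ := F.sep_base u v
  refine ⟨n0, fun x x' t hx hx' ht hst hs => ?_⟩
  obtain ⟨z, hz, h1, h2⟩ := F.suffix_code hs
  have h3 := hn0 x x' hx hx' z hz t ht hst h2
  rw [← F.inj z x' h3 h1]
  exact hz

/-! ### Meets -/

/-- long common initial segments of branches of `u` and of `v` are initial segments of branches of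
`u ⊓ v` -/
theorem ss (u v : L) : ∃ n0, ∀ s : List ℕ, n0 ≤ s.length → F.T u s → F.T v s → F.T (u ⊓ v) s := by
  obtain ⟨n1, hn1⟩ := F.suffix_base u v
  obtain ⟨n2, hn2⟩ := F.suffix_base v u
  refine ⟨n1 + n2 + 1, ?_⟩
  rintro s hs ⟨ζ, hζ, e1⟩ ⟨ξ, hξ, e2⟩
  have he : ∀ t < s.length, ζ t = ξ t := pre_inj (e1.symm.trans e2)
  rcases hζ with h1 | ⟨x, t0, hx, hw⟩
  · rw [e1]
    exact F.T_blank _ fun t _ => h1 t
  rcases hξ with h1 | ⟨x', t0', hx', hw'⟩
  · rw [e2]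
    exact F.T_blank _ fun t _ => h1 t
  rcases le_or_gt s.length t0 with h1 | h1
  · rw [e1]
    exact F.T_blank _ fun t ht => hw.2.1 t (ht.trans_le h1)
  rcases le_or_gt s.length t0' with h1' | h1'
  · rw [e2]
    exact F.T_blank _ fun t ht => hw'.2.1 t (ht.trans_le h1')
  obtain ⟨l, hl⟩ := hw.2.2 (s.length - 1) (by omega)
  obtain ⟨l', hl'⟩ := hw'.2.2 (s.length - 1) (by omega)
  have h2 : l ++ F.code x (s.length - 1) = l' ++ F.code x' (s.length - 1) := by
    apply enc_inj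
    rw [← hl, ← hl']
    exact he _ (by omega)
  have h3 : F.code x (s.length - 1) <:+ l' ++ F.code x' (s.length - 1) := ⟨l, h2⟩
  have h4 : F.code x' (s.length - 1) <:+ l' ++ F.code x' (s.length - 1) := ⟨l', rfl⟩
  have hst := hw.1
  have hst' := hw'.1
  rcases List.suffix_or_suffix_of_suffix h3 h4 with h5 | h5
  · have h6 := hn2 x' x _ hx' hx (by omega) (by omega) h5
    rw [e2]
    exact F.T_pre (hw'.K_of_le (le_inf ((F.le_of_mem_upl h6).trans (F.le_of_base hx))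
      (F.le_of_base hx'))) _
  · have h6 := hn1 x x' _ hx hx' (by omega) (by omega) h5
    rw [e1]
    exact F.T_pre (hw.K_of_le (le_inf (F.le_of_base hx)
      ((F.le_of_mem_upl h6).trans (F.le_of_base hx')))) _

/-! ### Order -/

/-- If an initial segment of the distinguished branch of `u` which is long enough belongs to
the tree of `v`, then it shows the code of an element of the base of `v`. -/
lemma read {u v : L} {m : ℕ} (hm : F.st u < m) (hT : F.T v (pre (F.c u) m)) :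
    ∃ x, F.Base v x ∧ F.st x ≤ F.st u ∧ F.code x (m - 1) <:+ F.code u (m - 1) := by
  obtain ⟨ζ, hζ, e⟩ := hT
  rw [pre_length] at e
  have he := pre_inj e
  have h0 : F.c u (F.st u) ≠ 0 := by
    unfold c
    rw [if_neg (lt_irrefl _)]
    exact enc_ne_zero _
  rcases hζ with h1 | ⟨x, t0, hx, hw⟩
  · exact absurd ((he _ hm).trans (h1 _)) h0
  · have ht0 : t0 ≤ F.st u := by
      by_contra h
      exact h0 ((he _ hm).trans (hw.2.1 _ (not_le.1 h)))
    refine ⟨x, hx, hw.1.trans ht0, ?_⟩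
    obtain ⟨l, hl⟩ := hw.2.2 (m - 1) (by omega)
    refine ⟨l, enc_inj ?_⟩
    rw [← hl, ← he (m - 1) (by omega)]
    unfold c
    rw [if_neg (by omega)]

theorem oo {u v : L} (h : ∀ n, F.Tp v (pre (F.c u) n)) : u ≤ v := by
  obtain ⟨n0, hn0⟩ := F.suffix_base u v
  have h1 := h (n0 + F.st u + F.kk v + 1)
  rcases h1 with h2 | h2
  · obtain ⟨x, hx, -, hs⟩ := F.read (by omega) h2
    have h3 := hn0 u x _ (F.base_self u) hx (by omega) (by omega) hs
    exact (F.le_of_mem_upl h3).trans (F.le_of_base hx)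
  · rw [pre_length] at h2
    omega

/-! ### Joins -/

lemma idx_le_kk {w y : L} (hy : y ∈ F.dnl w) : F.idx y ≤ F.kk w :=
  List.le_sum_of_mem (List.mem_map.2 ⟨y, hy, rfl⟩)

/-- The second reading lemma: the segment shows an element `y'` above `u`. -/
lemma read' {u w : L} {N m : ℕ} (hN : F.kk w < N) (hm : F.st u < m) (hNm : N < m)
    (hT : F.Tp w (pre (F.c u) m)) :
    ∃ z ∈ F.upl u, ∃ y ∈ F.dnl w, ∃ y', F.lev y' = F.lev z ∧ F.idx y' = F.idx y ∧ u ≤ y' ∧
      F.H (m - 1) (F.lev y) = F.H (m - 1) (F.lev y') := by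
  rcases hT with hT | hT
  · obtain ⟨x, ⟨y, hy, hxy, hle⟩, hst, hs⟩ := F.read hm hT
    obtain ⟨z, hz, h1, h2⟩ := F.suffix_code hs
    have hi := F.idx_lt_st x
    have hk := F.idx_le_kk hy
    obtain ⟨x', e1, e2, -, -, htr⟩ := F.transfer (t := m - 1) (x := x) (β := F.lev z) h2.symm
      (by omega)
    have hx' : x' = z := F.inj _ _ e1 (e2.trans h1.symm)
    obtain ⟨y', e3, e4, e5⟩ := htr y hxy.symm (by omega) hle
    refine ⟨z, hz, y, hy, y', e3, e4, (F.le_of_mem_upl hz).trans (hx' ▸ e5), ?_⟩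
    rw [e3, h2, hxy]
  · rw [pre_length] at hT
    omega

/-- the members of the lists `dnl y'` for the elements `y'` with a number `< N` whose level is the
level of a member of `upl u` -/
noncomputable def cand (u : L) (N : ℕ) : List L :=
  (F.upl u).flatMap fun z => (List.range N).flatMap fun i =>
    match F.elt (F.lev z) i with
    | none => []
    | some y => F.dnl y

lemma mem_cand {u z y y'' : L} {N : ℕ} (hz : z ∈ F.upl u) (hy : F.lev y = F.lev z)
    (hi : F.idx y < N) (h : y'' ∈ F.dnl y) : y'' ∈ F.cand u N := by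
  unfold cand
  rw [List.mem_flatMap]
  refine ⟨z, hz, ?_⟩
  rw [List.mem_flatMap]
  refine ⟨F.idx y, List.mem_range.2 hi, ?_⟩
  rw [← hy, F.elt_self y]
  exact h

lemma gg_aux (u v : L) (N : ℕ) : ∃ M, ∀ ζ, F.K (u ⊔ v) ζ → ∀ w s zu zv yu yv yu' yv',
    M ≤ s → F.kk w < N → zu ∈ F.upl u → zv ∈ F.upl v →
    yu ∈ F.dnl w → yv ∈ F.dnl yu → F.lev yu' = F.lev zu → F.lev yv' = F.lev zv →
    F.idx yu' = F.idx yu → F.idx yv' = F.idx yv → u ≤ yu' → v ≤ yv' →
    F.H (s + 1) (F.lev yu) = F.H (s + 1) (F.lev yu') →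
    F.H (s + 1) (F.lev yv) = F.H (s + 1) (F.lev yv') → F.Tp w (pre ζ N) := by
  obtain ⟨M1, hM1⟩ := F.sep_list ((F.cand u N).map F.lev) ((F.upl v).map F.lev)
  refine ⟨M1 + ((F.cand u N).map F.idx).sum + N + 1, ?_⟩
  intro ζ hζ w s zu zv yu yv yu' yv' hs hkN hzu hzv hyu hyv lu lv iu iv hu hv Hu Hv
  left
  have hku := F.idx_le_kk hyu
  obtain ⟨y0, f1, f2, -, f4, -⟩ := F.transfer (t := s + 1) (x := yu) (β := F.lev yu') Hu (by omega)
  have hy0 : y0 = yu' := F.inj _ _ f1 (f2.trans iu.symm)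
  have hdn := (f4 s (by omega) (by omega)).2
  rw [hy0] at hdn
  -- the member of `dnl yu'` which corresponds to `yv`
  obtain ⟨y2, hy2, g1⟩ := chain_map_mem F.lev F.dn _ _ hdn.symm hyv
  have g2 := chain_map_head F.lev F.dn _ _ g1
  have g3 : F.idx yv = F.idx y2 := (Prod.mk.inj g2).1
  have g4 : F.H s (F.lev yv) = F.H s (F.lev y2) := (Prod.mk.inj g2).2
  have g5 : F.H s (F.lev y2) = F.H s (F.lev zv) := by
    rw [← g4, ← lv]
    exact F.H_mono Hv (by omega)
  have hc2 : y2 ∈ F.cand u N := F.mem_cand hzu lu (by omega) hy2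
  have g6 : F.lev y2 = F.lev zv := hM1 _ (List.mem_map.2 ⟨y2, hc2, rfl⟩) _
    (List.mem_map.2 ⟨zv, hzv, rfl⟩) s (by omega) g5
  have g7 : y2 = yv' := F.inj _ _ (g6.trans lv.symm) (g3.symm.trans iv.symm)
  have hle : u ⊔ v ≤ yu' := sup_le hu (hv.trans (g7 ▸ F.ge_of_mem_dnl hy2))
  rcases hζ with h1 | ⟨x3, t0, hx3, hw⟩
  · exact F.T_blank _ fun t _ => h1 t
  rcases le_or_gt N t0 with h1 | h1
  · exact F.T_blank _ fun t ht => hw.2.1 t (ht.trans_le h1)
  obtain ⟨w3, hw3, y3, hy3, a1, a2⟩ := F.base_of_le ((F.le_of_base hx3).trans hle)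
  have hw' := hw.up hw3
  obtain ⟨y4, hy4, a3⟩ := chain_map_mem F.lev F.dn _ _ hdn hy3
  have a4 := chain_map_head F.lev F.dn _ _ a3
  have a5 : F.idx y3 = F.idx y4 := (Prod.mk.inj a4).1
  have a6 : F.H s (F.lev y3) = F.H s (F.lev y4) := (Prod.mk.inj a4).2
  have hi3 : F.idx y3 ≤ ((F.cand u N).map F.idx).sum :=
    List.le_sum_of_mem (List.mem_map.2 ⟨y3, F.mem_cand hzu lu (by omega) hy3, rfl⟩)
  have hiw := F.idx_lt_st w3
  have hst := hw'.1
  obtain ⟨w4, b1, b2, b3, b4, b5⟩ := F.transfer (t := s) (x := w3) (β := F.lev y4) (a1 ▸ a6)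
    (by omega)
  obtain ⟨y5, d1, d2, d3⟩ := b5 y3 a1.symm (by omega) a2
  have hy5 : y5 = y4 := F.inj _ _ d1 (d2.trans a5)
  have hbase : F.Base w w4 := ⟨y4, mem_chain_trans _ _ hyu hy4, b1, hy5 ▸ d3⟩
  let ξ : ℕ → ℕ := fun t => if t < N then ζ t else enc (F.code w4 t)
  have hξ : F.Wit ξ w4 t0 := by
    refine ⟨b3 ▸ hst, fun t ht => ?_, fun t ht => ?_⟩
    · change (if t < N then ζ t else enc (F.code w4 t)) = 0
      rw [if_pos (ht.trans h1)]
      exact hw'.2.1 t ht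
    · by_cases h2 : t < N
      · obtain ⟨l, hl⟩ := hw'.2.2 t ht
        refine ⟨l, ?_⟩
        change (if t < N then ζ t else enc (F.code w4 t)) = _
        rw [if_pos h2, hl]
        have e : F.code w4 t = F.code w3 t := (b4 t (by omega) (by omega)).1
        rw [e]
      · refine ⟨[], ?_⟩
        change (if t < N then ζ t else enc (F.code w4 t)) = _
        rw [if_neg h2, List.nil_append]
  have e : pre ζ N = pre ξ N := by
    apply pre_congr
    intro t ht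
    change _ = (if t < N then ζ t else enc (F.code w4 t))
    rw [if_pos ht]
  rw [e]
  exact F.T_pre (Or.inr ⟨w4, t0, hbase, hξ⟩) N

/-- The initial segments of the branches of `u ⊔ v` are forced by long initial segments of the
distinguished branches of `u` and `v`. -/
theorem gg (u v : L) (N : ℕ) : ∃ M, ∀ ζ, F.K (u ⊔ v) ζ → ∀ m, M ≤ m →
    F.E (pre (F.c u) m) (pre (F.c v) m) (pre ζ N) := by
  obtain ⟨M1, hM1⟩ := F.gg_aux u v N
  obtain ⟨M2, hM2⟩ := F.gg_aux v u N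
  refine ⟨M1 + M2 + F.st u + F.st v + N + 3, ?_⟩
  intro ζ hζ m hm w hu hv
  rcases le_or_gt N (F.kk w) with h | h
  · right
    rw [pre_length]
    exact h
  obtain ⟨zu, hzu, yu, hyu, yu', lu, iu, leu, Hu⟩ := F.read' h (by omega) (by omega) hu
  obtain ⟨zv, hzv, yv, hyv, yv', lv, iv, lev', Hv⟩ := F.read' h (by omega) (by omega) hv
  obtain ⟨s, rfl⟩ : ∃ s, m = s + 2 := ⟨m - 2, by omega⟩
  rcases chain_total _ _ hyu hyv with h1 | h1
  · exact hM2 ζ (by rwa [sup_comm]) w s zv zu yv yu yv' yu' (by omega) h hzv hzu hyv h1 lv lu iv iu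
      lev' leu Hv Hu
  · exact hM1 ζ hζ w s zu zv yu yv yu' yv' (by omega) h hzu hzv hyu h1 lu lv iu iv leu lev' Hu Hv

end Filt

end Pool.Agent.Q16.LC
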