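import Mathlib

/-!
# Filtrations of a lattice and the projections to lower levels

`L` is a lattice without infinite chains, every element `x` of `L` has a level `lev x` in a
well-order such that the elements of level at most `α` form a sublattice. The list `upl x` consists
of `x`, the least element above `x` of smaller level, and so on; `dnl x` is defined dually. The
basic fact is `base_of_le`: if `z ≤ u`, then some member of `upl z` lies below a member of `dnl u`
of the same level.
-/

set_option autoImplicit false
set_option linter.unusedSectionVars false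

namespace Pool.Agent.Q16.LC

section chain

open Classical in
/-- The list `x, f x, f (f x), …`, as long as the level drops. -/
noncomputable def chain {L Ω : Type} [LinearOrder Ω] [WellFoundedLT Ω] (lev : L → Ω) (f : L → L)
    (x : L) : List L :=
  (InvImage.wf lev (wellFounded_lt (α := Ω))).fix
    (fun x ih => if h : lev (f x) < lev x then x :: ih (f x) h else [x]) x

variable {L Ω : Type} [LinearOrder Ω] [WellFoundedLT Ω] (lev : L → Ω) (f : L → L)

lemma chain_pos {x : L} (h : lev (f x) < lev x) :
    chain lev f x = x :: chain lev f (f x) := by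
  unfold chain
  rw [WellFounded.fix_eq, dif_pos h]

lemma chain_neg {x : L} (h : ¬ lev (f x) < lev x) : chain lev f x = [x] := by
  unfold chain
  rw [WellFounded.fix_eq, dif_neg h]

lemma chain_head (x : L) : ∃ l, chain lev f x = x :: l := by
  by_cases h : lev (f x) < lev x
  · exact ⟨_, chain_pos lev f h⟩
  · exact ⟨_, chain_neg lev f h⟩

lemma chain_ne_nil (x : L) : chain lev f x ≠ [] := by
  obtain ⟨l, hl⟩ := chain_head lev f x
  rw [hl]
  exact List.cons_ne_nil _ _

lemma self_mem_chain (x : L) : x ∈ chain lev f x := by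
  obtain ⟨l, hl⟩ := chain_head lev f x
  rw [hl]
  exact List.mem_cons_self

lemma chain_suffix_aux : ∀ (α : Ω) (x : L), lev x = α → ∀ y ∈ chain lev f x,
    chain lev f y <:+ chain lev f x := by
  intro α
  induction α using WellFoundedLT.induction with
  | ind α ih =>
    intro x hx y hy
    by_cases h : lev (f x) < lev x
    · rw [chain_pos lev f h] at hy
      rcases List.mem_cons.1 hy with h1 | h1
      · rw [h1]
      · rw [chain_pos lev f h]
        exact (ih _ (hx ▸ h) (f x) rfl y h1).trans (List.suffix_cons _ _)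
    · rw [chain_neg lev f h] at hy
      rw [List.mem_singleton.1 hy]

lemma chain_suffix {x y : L} (hy : y ∈ chain lev f x) : chain lev f y <:+ chain lev f x :=
  chain_suffix_aux lev f _ x rfl y hy

lemma mem_chain_trans {x y z : L} (hy : y ∈ chain lev f x) (hz : z ∈ chain lev f y) :
    z ∈ chain lev f x :=
  (chain_suffix lev f hy).subset hz

lemma chain_lev_aux : ∀ (α : Ω) (x : L), lev x = α → ∀ y ∈ chain lev f x,
    y = x ∨ lev y < lev x := by
  intro α
  induction α using WellFoundedLT.induction with
  | ind α ih =>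
    intro x hx y hy
    by_cases h : lev (f x) < lev x
    · rw [chain_pos lev f h] at hy
      rcases List.mem_cons.1 hy with h1 | h1
      · exact Or.inl h1
      · rcases ih _ (hx ▸ h) (f x) rfl y h1 with h2 | h2
        · rw [h2]
          exact Or.inr h
        · exact Or.inr (h2.trans h)
    · rw [chain_neg lev f h] at hy
      exact Or.inl (List.mem_singleton.1 hy)

lemma chain_lev {x y : L} (hy : y ∈ chain lev f x) : y = x ∨ lev y < lev x :=
  chain_lev_aux lev f _ x rfl y hy

lemma chain_lev_le {x y : L} (hy : y ∈ chain lev f x) : lev y ≤ lev x := by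
  rcases chain_lev lev f hy with h | h
  · rw [h]
  · exact h.le

lemma chain_total {x y z : L} (hy : y ∈ chain lev f x) (hz : z ∈ chain lev f x) :
    y ∈ chain lev f z ∨ z ∈ chain lev f y := by
  rcases List.suffix_or_suffix_of_suffix (chain_suffix lev f hy) (chain_suffix lev f hz) with h | h
  · exact Or.inl (h.subset (self_mem_chain lev f y))
  · exact Or.inr (h.subset (self_mem_chain lev f z))

lemma chain_of_suffix_aux : ∀ (α : Ω) (x : L), lev x = α → ∀ l : List L, l ≠ [] →
    l <:+ chain lev f x → ∃ z ∈ chain lev f x, l = chain lev f z := by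
  intro α
  induction α using WellFoundedLT.induction with
  | ind α ih =>
    intro x hx l hl hs
    by_cases h : lev (f x) < lev x
    · rw [chain_pos lev f h] at hs
      rcases List.suffix_cons_iff.1 hs with h1 | h1
      · exact ⟨x, self_mem_chain lev f x, by rw [h1, chain_pos lev f h]⟩
      · obtain ⟨z, hz, hz'⟩ := ih _ (hx ▸ h) (f x) rfl l hl h1
        refine ⟨z, ?_, hz'⟩
        rw [chain_pos lev f h]
        exact List.mem_cons_of_mem _ hz
    · rw [chain_neg lev f h] at hs
      rcases List.suffix_cons_iff.1 hs with h1 | h1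
      · exact ⟨x, self_mem_chain lev f x, by rw [h1, chain_neg lev f h]⟩
      · exact absurd (List.suffix_nil.1 h1) hl

/-- A nonempty suffix of the image of a chain is the image of the chain of a member. -/
lemma chain_of_suffix_map {X : Type} (g : L → X) {x : L} {l : List X} (hl : l ≠ [])
    (hs : l <:+ (chain lev f x).map g) :
    ∃ z ∈ chain lev f x, l = (chain lev f z).map g := by
  obtain ⟨l', hl'⟩ := hs
  have h1 : l = ((chain lev f x).drop l'.length).map g := by
    rw [List.map_drop, ← hl', List.drop_left]
  have h2 : (chain lev f x).drop l'.length ≠ [] := by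
    intro h
    rw [h] at h1
    exact hl h1
  obtain ⟨z, hz, hz'⟩ := chain_of_suffix_aux lev f _ x rfl _ h2 (List.drop_suffix _ _)
  exact ⟨z, hz, by rw [h1, hz']⟩

/-- If two chains have the same images, then so do the members, in order. -/
lemma chain_map_head {X : Type} (g g' : L → X) {x z : L}
    (h : (chain lev f x).map g = (chain lev f z).map g') : g x = g' z := by
  obtain ⟨l, hl⟩ := chain_head lev f x
  obtain ⟨l', hl'⟩ := chain_head lev f z
  rw [hl, hl', List.map_cons, List.map_cons] at h
  exact (List.cons.inj h).1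

/-- If two chains have the same images, then so do the chains of corresponding members. -/
lemma chain_map_mem {X : Type} (g g' : L → X) {x z y : L}
    (h : (chain lev f x).map g = (chain lev f z).map g') (hy : y ∈ chain lev f x) :
    ∃ w ∈ chain lev f z, (chain lev f y).map g = (chain lev f w).map g' := by
  have h1 : (chain lev f y).map g <:+ (chain lev f z).map g' := by
    rw [← h]
    obtain ⟨l, hl⟩ := chain_suffix lev f hy
    exact ⟨l.map g, by rw [← List.map_append, hl]⟩
  refine chain_of_suffix_map lev f g' ?_ h1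
  intro h2
  exact chain_ne_nil lev f y (List.map_eq_nil_iff.1 h2)

variable [PartialOrder L]

lemma le_of_mem_chain_aux (hf : ∀ x, x ≤ f x) : ∀ (α : Ω) (x : L), lev x = α →
    ∀ y ∈ chain lev f x, x ≤ y := by
  intro α
  induction α using WellFoundedLT.induction with
  | ind α ih =>
    intro x hx y hy
    by_cases h : lev (f x) < lev x
    · rw [chain_pos lev f h] at hy
      rcases List.mem_cons.1 hy with h1 | h1
      · exact h1.ge
      · exact (hf x).trans (ih _ (hx ▸ h) (f x) rfl y h1)
    · rw [chain_neg lev f h] at hy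
      exact (List.mem_singleton.1 hy).ge

lemma ge_of_mem_chain_aux (hf : ∀ x, f x ≤ x) : ∀ (α : Ω) (x : L), lev x = α →
    ∀ y ∈ chain lev f x, y ≤ x := by
  intro α
  induction α using WellFoundedLT.induction with
  | ind α ih =>
    intro x hx y hy
    by_cases h : lev (f x) < lev x
    · rw [chain_pos lev f h] at hy
      rcases List.mem_cons.1 hy with h1 | h1
      · exact h1.le
      · exact (ih _ (hx ▸ h) (f x) rfl y h1).trans (hf x)
    · rw [chain_neg lev f h] at hy
      exact (List.mem_singleton.1 hy).le

end chain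

/-- A filtration of the lattice `L`: every element has a level in the well-order `Ω` and a number;
the elements of level at most `α` form a sublattice, `⊥` and `⊤` have the least level, different
elements of the same level have different numbers, and `en α` enumerates the levels up to `α`. -/
structure Filt (L Ω : Type) [Lattice L] [BoundedOrder L] [LinearOrder Ω] where
  /-- the level -/
  lev : L → Ω
  /-- the number -/
  idx : L → ℕ
  /-- the enumerations of the initial segments -/
  en : Ω → ℕ → Ω
  inj : ∀ x y, lev x = lev y → idx x = idx y → x = y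
  inf : ∀ x y, lev (x ⊓ y) ≤ max (lev x) (lev y)
  sup : ∀ x y, lev (x ⊔ y) ≤ max (lev x) (lev y)
  bot : ∀ x, lev ⊥ ≤ lev x
  top : ∀ x, lev ⊤ ≤ lev x
  en_surj : ∀ β γ, γ ≤ β → ∃ k, en β k = γ

variable {L Ω : Type} [Lattice L] [BoundedOrder L] [WellFoundedLT L] [WellFoundedGT L]
  [LinearOrder Ω] [WellFoundedLT Ω] (F : Filt L Ω)

namespace Filt

lemma exists_up (x : L) (h : F.lev ⊤ < F.lev x) :
    ∃ y, F.lev y < F.lev x ∧ x ≤ y ∧ ∀ z, F.lev z < F.lev x → x ≤ z → y ≤ z := by
  obtain ⟨y, ⟨hy1, hy2⟩, hy3⟩ := WellFounded.has_min (wellFounded_lt (α := L))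
    {y | F.lev y < F.lev x ∧ x ≤ y} ⟨⊤, h, le_top⟩
  refine ⟨y, hy1, hy2, fun z hz1 hz2 => ?_⟩
  have h1 : ¬ y ⊓ z < y := hy3 (y ⊓ z) ⟨(F.inf y z).trans_lt (max_lt hy1 hz1), le_inf hy2 hz2⟩
  have h2 : y ⊓ z = y := by
    rcases (inf_le_left : y ⊓ z ≤ y).lt_or_eq with h3 | h3
    · exact absurd h3 h1
    · exact h3
  rw [← h2]
  exact inf_le_right

lemma exists_dn (x : L) (h : F.lev ⊥ < F.lev x) :
    ∃ y, F.lev y < F.lev x ∧ y ≤ x ∧ ∀ z, F.lev z < F.lev x → z ≤ x → z ≤ y := by
  obtain ⟨y, ⟨hy1, hy2⟩, hy3⟩ := WellFounded.has_min (wellFounded_gt (α := L))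
    {y | F.lev y < F.lev x ∧ y ≤ x} ⟨⊥, h, bot_le⟩
  refine ⟨y, hy1, hy2, fun z hz1 hz2 => ?_⟩
  have h1 : ¬ y ⊔ z > y := hy3 (y ⊔ z) ⟨(F.sup y z).trans_lt (max_lt hy1 hz1), sup_le hy2 hz2⟩
  have h2 : y ⊔ z = y := by
    rcases (le_sup_left : y ≤ y ⊔ z).lt_or_eq with h3 | h3
    · exact absurd h3 h1
    · exact h3.symm
  rw [← h2]
  exact le_sup_right

open Classical in
/-- the least element above `x` of smaller level -/
noncomputable def up (x : L) : L := if h : F.lev ⊤ < F.lev x then (F.exists_up x h).choose else x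

open Classical in
/-- the greatest element below `x` of smaller level -/
noncomputable def dn (x : L) : L := if h : F.lev ⊥ < F.lev x then (F.exists_dn x h).choose else x

lemma le_up (x : L) : x ≤ F.up x := by
  unfold up
  split_ifs with h
  · exact (F.exists_up x h).choose_spec.2.1
  · exact le_refl x

lemma dn_le (x : L) : F.dn x ≤ x := by
  unfold dn
  split_ifs with h
  · exact (F.exists_dn x h).choose_spec.2.1
  · exact le_refl x

lemma up_spec {x z : L} (hz : F.lev z < F.lev x) (hxz : x ≤ z) :
    F.lev (F.up x) < F.lev x ∧ F.up x ≤ z := by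
  have h : F.lev ⊤ < F.lev x := (F.top z).trans_lt hz
  unfold up
  rw [dif_pos h]
  exact ⟨(F.exists_up x h).choose_spec.1, (F.exists_up x h).choose_spec.2.2 z hz hxz⟩

lemma dn_spec {x z : L} (hz : F.lev z < F.lev x) (hxz : z ≤ x) :
    F.lev (F.dn x) < F.lev x ∧ z ≤ F.dn x := by
  have h : F.lev ⊥ < F.lev x := (F.bot z).trans_lt hz
  unfold dn
  rw [dif_pos h]
  exact ⟨(F.exists_dn x h).choose_spec.1, (F.exists_dn x h).choose_spec.2.2 z hz hxz⟩

/-- the list of the upper projections of `x` -/
noncomputable def upl (x : L) : List L := chain F.lev F.up x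

/-- the list of the lower projections of `x` -/
noncomputable def dnl (x : L) : List L := chain F.lev F.dn x

lemma le_of_mem_upl {x y : L} (h : y ∈ F.upl x) : x ≤ y :=
  le_of_mem_chain_aux F.lev F.up F.le_up _ x rfl y h

lemma ge_of_mem_dnl {x y : L} (h : y ∈ F.dnl x) : y ≤ x :=
  ge_of_mem_chain_aux F.lev F.dn F.dn_le _ x rfl y h

/-- `x` lies below a member of `dnl w` of the same level. -/
def Base (w x : L) : Prop := ∃ y ∈ F.dnl w, F.lev x = F.lev y ∧ x ≤ y

lemma base_self (w : L) : F.Base w w := ⟨w, self_mem_chain _ _ w, rfl, le_refl w⟩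

lemma le_of_base {w x : L} (h : F.Base w x) : x ≤ w := by
  obtain ⟨y, hy, -, hxy⟩ := h
  exact hxy.trans (F.ge_of_mem_dnl hy)

lemma base_of_le_aux : ∀ (α : Ω) (z : L), F.lev z = α → ∀ (β : Ω) (u : L), F.lev u = β → z ≤ u →
    ∃ z' ∈ F.upl z, F.Base u z' := by
  intro α
  induction α using WellFoundedLT.induction with
  | ind α ihα =>
    intro z hz β
    induction β using WellFoundedLT.induction with
    | ind β ihβ =>
      intro u hu hzu
      rcases lt_trichotomy (F.lev z) (F.lev u) with h | h | h
      · obtain ⟨h1, h2⟩ := F.dn_spec h hzu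
        obtain ⟨z', hz', y, hy, hy'⟩ := ihβ (F.lev (F.dn u)) (hu ▸ h1) (F.dn u) rfl h2
        refine ⟨z', hz', y, ?_, hy'⟩
        unfold dnl
        rw [chain_pos _ _ h1]
        exact List.mem_cons_of_mem _ hy
      · exact ⟨z, self_mem_chain _ _ z, u, self_mem_chain _ _ u, h, hzu⟩
      · obtain ⟨h1, h2⟩ := F.up_spec h hzu
        obtain ⟨z', hz', hb⟩ := ihα (F.lev (F.up z)) (hz ▸ h1) (F.up z) rfl β u hu h2
        refine ⟨z', ?_, hb⟩
        unfold upl
        rw [chain_pos _ _ h1]
        exact List.mem_cons_of_mem _ hz'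

/-- If `z ≤ u`, then some member of `upl z` lies below a member of `dnl u` of the same level. -/
theorem base_of_le {z u : L} (h : z ≤ u) : ∃ z' ∈ F.upl z, F.Base u z' :=
  F.base_of_le_aux _ z rfl _ u rfl h

lemma base_trans {w y x : L} (hy : y ∈ F.dnl w) (h : F.Base y x) : F.Base w x := by
  obtain ⟨z, hz, h1⟩ := h
  exact ⟨z, mem_chain_trans _ _ hy hz, h1⟩

end Filt

end Pool.Agent.Q16.LC
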