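import Pool.Agent.Q16.LC.Mon
import Pool.Agent.H845.LocCloneDefs

/-!
# From closed monoids to local clones

Embeddings into the lattice of closed monoids of transformations of a countably infinite set yield
embeddings into the lattice of local clones on `ℕ` (the essentially unary ones).
-/

set_option autoImplicit false
set_option linter.unusedSectionVars false

namespace Pool.Agent.Q16.LC

open Pool.H845.LocClone

/-- the essentially unary operations given by the transformations in `P` -/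
def clo (P : Set (ℕ → ℕ)) : Ops := fun n => {h | ∃ i : Fin (n + 1), ∃ g ∈ P, h = fun x => g (x i)}

lemma clo_isLocalClone {P : Set (ℕ → ℕ)} (hP : IsCl P) : IsLocalClone (clo P) := by
  classical
  refine ⟨fun n i => ⟨i, id, hP.1, rfl⟩, ?_, ?_⟩
  · rintro n m g hs ⟨i, a, ha, rfl⟩ hhs
    obtain ⟨j, b, hb, hj⟩ := hhs i
    refine ⟨j, a ∘ b, hP.2.1 a ha b hb, ?_⟩
    funext x
    change a (hs i x) = a (b (x j))
    rw [hj]
  · intro n g hg
    by_contra hne
    have h1 : ∀ i : Fin (n + 1), ∃ A : Finset (Fin (n + 1) → ℕ), ∀ a ∈ P, ∃ x ∈ A,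
        a (x i) ≠ g x := by
      intro i
      by_contra h
      push Not at h
      refine hne ⟨i, fun t => g fun _ => t, hP.2.2 _ fun Q => ?_, ?_⟩
      · obtain ⟨a, ha, ha'⟩ := h (Q.image fun t => fun _ => t)
        exact ⟨a, ha, fun t ht => ha' _ (Finset.mem_image.2 ⟨t, ht, rfl⟩)⟩
      · funext x
        obtain ⟨a, ha, ha'⟩ := h {x, fun _ => x i}
        rw [← ha' x (by simp)]
        exact ha' (fun _ => x i) (by simp)
    choose A hA using h1
    obtain ⟨h, ⟨i, a, ha, rfl⟩, h2⟩ := hg (Finset.univ.biUnion A)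
    obtain ⟨x, hx, hx'⟩ := hA i a ha
    exact hx' (h2 x (Finset.mem_biUnion.2 ⟨i, Finset.mem_univ _, hx⟩))

lemma clo_mono {P P' : Set (ℕ → ℕ)} (h : P ⊆ P') : clo P ≤ clo P' := by
  rintro n g ⟨i, a, ha, rfl⟩
  exact ⟨i, a, h ha, rfl⟩

lemma mem_clo_zero {P : Set (ℕ → ℕ)} {g : ℕ → ℕ} :
    (fun x : Fin 1 → ℕ => g (x 0)) ∈ clo P 0 ↔ g ∈ P := by
  constructor
  · rintro ⟨i, a, ha, h⟩
    have : g = a := by
      funext t
      exact congrFun h fun _ => t
    rw [this]
    exact ha
  · intro h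
    exact ⟨0, g, h, rfl⟩

lemma clo_injective {P P' : Set (ℕ → ℕ)} (h : clo P = clo P') : P = P' := by
  ext g
  rw [← mem_clo_zero, h, mem_clo_zero]

lemma clo_inter (P P' : Set (ℕ → ℕ)) : clo (P ∩ P') = clo P ⊓ clo P' := by
  apply le_antisymm
  · exact le_inf (clo_mono Set.inter_subset_left) (clo_mono Set.inter_subset_right)
  · rintro n h ⟨⟨i, a, ha, h1⟩, ⟨j, b, hb, h2⟩⟩
    have : a = b := by
      funext t
      have := congrFun (h1.symm.trans h2) fun _ => t
      exact this
    exact ⟨i, a, ⟨ha, this ▸ hb⟩, h1⟩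

/-- the unary operations in `C` -/
def una (C : Ops) : Set (ℕ → ℕ) := {g | (fun x : Fin 1 → ℕ => g (x 0)) ∈ C 0}

lemma una_isCl {C : Ops} (hC : IsLocalClone C) : IsCl (una C) := by
  classical
  refine ⟨hC.1 0 0, ?_, ?_⟩
  · intro g hg h hh
    exact hC.2.1 0 0 _ (fun _ => fun x => h (x 0)) hg fun _ => hh
  · intro g hg
    refine hC.2.2 0 _ fun A => ?_
    obtain ⟨h, h1, h2⟩ := hg (A.image fun x => x 0)
    exact ⟨_, h1, fun x hx => h2 _ (Finset.mem_image.2 ⟨x, hx, rfl⟩)⟩

lemma clo_le_of {P : Set (ℕ → ℕ)} {C : Ops} (hC : IsLocalClone C) (h : P ⊆ una C) :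
    clo P ≤ C := by
  rintro n g ⟨i, a, ha, rfl⟩
  exact hC.2.1 0 n _ (fun _ => fun x => x i) (h ha) fun _ => hC.1 n i

lemma sub_una {P : Set (ℕ → ℕ)} {C : Ops} (h : clo P ≤ C) : P ⊆ una C :=
  fun _ hg => h 0 (mem_clo_zero.2 hg)

/-! ### Transport along a bijection -/

/-- conjugation of a set of transformations by a bijection -/
def tr {X Y : Type} (e : X ≃ Y) (P : Set (X → X)) : Set (Y → Y) :=
  {g | (fun x => e.symm (g (e x))) ∈ P}

lemma tr_isCl {X Y : Type} (e : X ≃ Y) {P : Set (X → X)} (hP : IsCl P) : IsCl (tr e P) := by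
  classical
  refine ⟨?_, ?_, ?_⟩
  · change (fun x => e.symm (id (e x))) ∈ P
    have : (fun x => e.symm (id (e x))) = id := by
      funext x
      simp
    rw [this]
    exact hP.1
  · intro g hg h hh
    change (fun x => e.symm ((g ∘ h) (e x))) ∈ P
    have : (fun x => e.symm ((g ∘ h) (e x))) =
        (fun x => e.symm (g (e x))) ∘ fun x => e.symm (h (e x)) := by
      funext x
      simp
    rw [this]
    exact hP.2.1 _ hg _ hh
  · intro g hg
    refine hP.2.2 _ fun Q => ?_
    obtain ⟨h, h1, h2⟩ := hg (Q.image e)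
    refine ⟨_, h1, fun x hx => ?_⟩
    rw [h2 _ (Finset.mem_image_of_mem _ hx)]

lemma tr_tr {X Y : Type} (e : X ≃ Y) (P : Set (X → X)) : tr e.symm (tr e P) = P := by
  ext g
  change (fun x => e.symm (e.symm.symm (g (e.symm (e x))))) ∈ P ↔ g ∈ P
  have : (fun x => e.symm (e.symm.symm (g (e.symm (e x))))) = g := by
    funext x
    simp
  rw [this]

lemma tr_mono {X Y : Type} (e : X ≃ Y) {P P' : Set (X → X)} (h : P ⊆ P') : tr e P ⊆ tr e P' :=
  fun _ hg => h hg

/-- An embedding into the lattice of closed monoids yields an embedding into the lattice of local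
clones. -/
theorem embedding_of_monoids {L X : Type} [Lattice L] (e : X ≃ ℕ) (M : L → Set (X → X))
    (hM : ∀ u, IsCl (M u)) (hinj : Function.Injective M) (hmono : ∀ u v, u ≤ v → M u ⊆ M v)
    (hinf : ∀ u v, M (u ⊓ v) = M u ∩ M v)
    (hsup : ∀ (u v : L) (P : Set (X → X)), IsCl P → M u ⊆ P → M v ⊆ P → M (u ⊔ v) ⊆ P) :
    ∃ f : L → Ops, IsLatticeEmbedding f := by
  refine ⟨fun u => clo (tr e (M u)), ⟨?_, ?_, ?_, ?_⟩, ?_⟩
  · intro u v h
    apply hinj
    have h1 := clo_injective h
    rw [← tr_tr e (M u), ← tr_tr e (M v), h1]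
  · intro u
    exact clo_isLocalClone (tr_isCl e (hM u))
  · intro u v
    exact ⟨clo_mono (tr_mono e (hmono _ _ le_sup_left)),
      clo_mono (tr_mono e (hmono _ _ le_sup_right))⟩
  · intro u v C hC hu hv
    refine clo_le_of hC ?_
    have h1 : M (u ⊔ v) ⊆ tr e.symm (una C) := by
      refine hsup u v _ (tr_isCl _ (una_isCl hC)) ?_ ?_
      · have := tr_mono e.symm (sub_una hu)
        rwa [tr_tr] at this
      · have := tr_mono e.symm (sub_una hv)
        rwa [tr_tr] at this
    have h2 := tr_mono e h1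
    have h3 : tr e (tr e.symm (una C)) = una C := tr_tr e.symm (una C)
    rwa [h3] at h2
  · intro u v
    change clo (tr e (M (u ⊓ v))) = _
    rw [hinf]
    exact clo_inter _ _

instance : Countable Sym := by
  have h : Function.Injective (fun a : Sym => match a with
      | Sym.mark n => (Sum.inl n : ℕ ⊕ (List ℕ ⊕ List ℕ))
      | Sym.tok s => Sum.inr (Sum.inl s)
      | Sym.dr s => Sum.inr (Sum.inr s)) := by
    intro a b h
    cases a <;> cases b <;> simp_all
  exact h.countable

/-- A lattice with a filtration embeds into the lattice of local clones. -/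
theorem embedding_of_filt {L Ω : Type} [Lattice L] [BoundedOrder L] [WellFoundedLT L]
    [WellFoundedGT L] [LinearOrder Ω] [WellFoundedLT Ω] (F : Filt L Ω) :
    ∃ f : L → Ops, IsLatticeEmbedding f := by
  obtain ⟨e⟩ := nonempty_equiv_of_countable (α := St) (β := ℕ)
  exact embedding_of_monoids e F.M F.M_isCl F.M_injective (fun _ _ h => F.M_mono h) F.M_inf
    fun _ _ _ hP hu hv => F.M_sup hP hu hv

end Pool.Agent.Q16.LC
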