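import Pool.Agent.Q16.LC.Clone

/-!
# Existence of filtrations

Every lattice of cardinality at most `ℵ₁` without infinite chains has a filtration.
-/

set_option autoImplicit false
set_option linter.unusedSectionVars false

namespace Pool.Agent.Q16.LC

open Pool.H845.LocClone Cardinal

section closure

variable {L : Type} [Lattice L]

/-- one step of the generation of a sublattice -/
def stp (S : Set L) : Set L := S ∪ (Set.image2 (· ⊓ ·) S S ∪ Set.image2 (· ⊔ ·) S S)

lemma stp_mono {S S' : Set L} (h : S ⊆ S') : stp S ⊆ stp S' :=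
  Set.union_subset_union h (Set.union_subset_union (Set.image2_subset h h)
    (Set.image2_subset h h))

lemma stp_countable {S : Set L} (h : S.Countable) : (stp S).Countable :=
  h.union ((h.image2 h _).union (h.image2 h _))

/-- the stages of the generation of a sublattice -/
def sta (S : Set L) : ℕ → Set L
  | 0 => S
  | n + 1 => stp (sta S n)

/-- the sublattice generated by `S` -/
def sub (S : Set L) : Set L := ⋃ n, sta S n

lemma sta_le {S : Set L} {n m : ℕ} (h : n ≤ m) : sta S n ⊆ sta S m := by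
  induction h with
  | refl => exact subset_rfl
  | step _ ih => exact ih.trans Set.subset_union_left

lemma sta_mono {S S' : Set L} (h : S ⊆ S') (n : ℕ) : sta S n ⊆ sta S' n := by
  induction n with
  | zero => exact h
  | succ n ih => exact stp_mono ih

lemma sub_mono {S S' : Set L} (h : S ⊆ S') : sub S ⊆ sub S' :=
  Set.iUnion_mono fun n => sta_mono h n

lemma subset_sub (S : Set L) : S ⊆ sub S := Set.subset_iUnion (sta S) 0

lemma sub_countable {S : Set L} (h : S.Countable) : (sub S).Countable := by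
  refine Set.countable_iUnion fun n => ?_
  induction n with
  | zero => exact h
  | succ n ih => exact stp_countable ih

lemma sub_inf {S : Set L} {x y : L} (hx : x ∈ sub S) (hy : y ∈ sub S) : x ⊓ y ∈ sub S := by
  obtain ⟨n, hn⟩ := Set.mem_iUnion.1 hx
  obtain ⟨m, hm⟩ := Set.mem_iUnion.1 hy
  refine Set.mem_iUnion.2 ⟨max n m + 1, Or.inr (Or.inl ?_)⟩
  exact ⟨x, sta_le (le_max_left _ _) hn, y, sta_le (le_max_right _ _) hm, rfl⟩

lemma sub_sup {S : Set L} {x y : L} (hx : x ∈ sub S) (hy : y ∈ sub S) : x ⊔ y ∈ sub S := by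
  obtain ⟨n, hn⟩ := Set.mem_iUnion.1 hx
  obtain ⟨m, hm⟩ := Set.mem_iUnion.1 hy
  refine Set.mem_iUnion.2 ⟨max n m + 1, Or.inr (Or.inr ?_)⟩
  exact ⟨x, sta_le (le_max_left _ _) hn, y, sta_le (le_max_right _ _) hm, rfl⟩

end closure

lemma exists_filt {L Ω : Type} [Lattice L] [BoundedOrder L] [LinearOrder Ω] [WellFoundedLT Ω]
    (hΩ : ∀ β : Ω, (Set.Iic β).Countable) (g : L → Ω) (hg : Function.Injective g) :
    Nonempty (Filt L Ω) := by
  classical
  let A : Ω → Set L := fun α => sub (g ⁻¹' Set.Iic α ∪ {⊥, ⊤})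
  have hA : ∀ α, (A α).Countable := fun α =>
    sub_countable (((hΩ α).preimage_of_injOn hg.injOn).union (Set.toFinite _).countable)
  have hmono : ∀ α β, α ≤ β → A α ⊆ A β := fun α β h =>
    sub_mono (Set.union_subset_union (Set.preimage_mono (Set.Iic_subset_Iic.2 h)) subset_rfl)
  have hself : ∀ x, x ∈ A (g x) := fun x => subset_sub _ (Or.inl (Set.mem_Iic.2 le_rfl))
  let lev : L → Ω := fun x => (wellFounded_lt (α := Ω)).min {α | x ∈ A α} ⟨g x, hself x⟩
  have hlev : ∀ x, x ∈ A (lev x) := fun x =>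
    WellFounded.min_mem (wellFounded_lt (α := Ω)) {α | x ∈ A α} ⟨g x, hself x⟩
  have hle : ∀ x α, x ∈ A α → lev x ≤ α := fun x α h =>
    not_lt.1 (WellFounded.not_lt_min (wellFounded_lt (α := Ω)) _ h)
  have hx : ∀ α, ∃ f : L → ℕ, Set.InjOn f (A α) := fun α =>
    Set.countable_iff_exists_injOn.1 (hA α)
  choose f hf using hx
  have he : ∀ β : Ω, ∃ e : ℕ → Ω, Set.Iic β = Set.range e := fun β =>
    (hΩ β).exists_eq_range ⟨β, Set.mem_Iic.2 le_rfl⟩
  choose e he using he
  refine ⟨⟨lev, fun x => f (lev x) x, e, ?_, ?_, ?_, ?_, ?_, ?_⟩⟩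
  · intro x y h1 h2
    refine hf (lev x) (hlev x) (h1 ▸ hlev y) ?_
    change f (lev x) x = f (lev y) y at h2
    rw [h2, h1]
  · intro x y
    exact hle _ _ (sub_inf (hmono _ _ (le_max_left _ _) (hlev x))
      (hmono _ _ (le_max_right _ _) (hlev y)))
  · intro x y
    exact hle _ _ (sub_sup (hmono _ _ (le_max_left _ _) (hlev x))
      (hmono _ _ (le_max_right _ _) (hlev y)))
  · intro x
    exact hle _ _ (subset_sub _ (Or.inr (Or.inl rfl)))
  · intro x
    exact hle _ _ (subset_sub _ (Or.inr (Or.inr rfl)))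
  · intro β γ h
    have h1 : γ ∈ Set.Iic β := h
    rw [he β] at h1
    exact h1

lemma wf_lt_of_chains {L : Type} [PartialOrder L]
    (h : ∀ s : Set L, IsChain (· ≤ ·) s → s.Finite) : WellFoundedLT L := by
  refine ⟨RelEmbedding.wellFounded_iff_isEmpty.2 ⟨fun f => ?_⟩⟩
  have h1 : IsChain (· ≤ ·) (Set.range f) := by
    rintro _ ⟨a, rfl⟩ _ ⟨b, rfl⟩ _
    rcases lt_trichotomy a b with h2 | h2 | h2
    · exact Or.inr (f.map_rel_iff.2 h2).le
    · exact Or.inl (h2 ▸ le_rfl)
    · exact Or.inl (f.map_rel_iff.2 h2).le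
  exact Set.infinite_range_of_injective f.injective (h _ h1)

lemma wf_gt_of_chains {L : Type} [PartialOrder L]
    (h : ∀ s : Set L, IsChain (· ≤ ·) s → s.Finite) : WellFoundedGT L := by
  refine ⟨RelEmbedding.wellFounded_iff_isEmpty.2 ⟨fun f => ?_⟩⟩
  have h1 : IsChain (· ≤ ·) (Set.range f) := by
    rintro _ ⟨a, rfl⟩ _ ⟨b, rfl⟩ _
    rcases lt_trichotomy a b with h2 | h2 | h2
    · exact Or.inl (f.map_rel_iff.2 h2).le
    · exact Or.inl (h2 ▸ le_rfl)
    · exact Or.inr (f.map_rel_iff.2 h2).le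
  exact Set.infinite_range_of_injective f.injective (h _ h1)

lemma exists_bot {L : Type} [Lattice L] [Nonempty L] [WellFoundedLT L] : ∃ b : L, ∀ x, b ≤ x := by
  obtain ⟨b, -, hb⟩ := WellFounded.has_min (wellFounded_lt (α := L)) Set.univ Set.univ_nonempty
  refine ⟨b, fun x => ?_⟩
  rcases (inf_le_left : b ⊓ x ≤ b).lt_or_eq with h | h
  · exact absurd h (hb _ (Set.mem_univ _))
  · rw [← h]
    exact inf_le_right

lemma exists_top {L : Type} [Lattice L] [Nonempty L] [WellFoundedGT L] : ∃ b : L, ∀ x, x ≤ b := by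
  obtain ⟨b, -, hb⟩ := WellFounded.has_min (wellFounded_gt (α := L)) Set.univ Set.univ_nonempty
  refine ⟨b, fun x => ?_⟩
  rcases (le_sup_left : b ≤ b ⊔ x).lt_or_eq with h | h
  · exact absurd h (hb _ (Set.mem_univ _))
  · rw [h]
    exact le_sup_right

/-- Every lattice of cardinality at most `ℵ₁` without infinite chains embeds into the lattice of
local clones on `ℕ`. -/
theorem embedding {L : Type} [Lattice L] (hc : ∀ s : Set L, IsChain (· ≤ ·) s → s.Finite)
    (hL : Cardinal.mk L ≤ ℵ₁) : ∃ f : L → Ops, IsLatticeEmbedding f := by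
  rcases isEmpty_or_nonempty L with hE | hN
  · exact ⟨fun _ _ => ∅, ⟨fun a => hE.elim a, fun a => hE.elim a, fun a => hE.elim a,
      fun a => hE.elim a⟩, fun a => hE.elim a⟩
  have i1 : WellFoundedLT L := wf_lt_of_chains hc
  have i2 : WellFoundedGT L := wf_gt_of_chains hc
  obtain ⟨b, hb⟩ := exists_bot (L := L)
  obtain ⟨t, ht⟩ := exists_top (L := L)
  let i3 : BoundedOrder L := { bot := b, bot_le := hb, top := t, le_top := ht }
  have hcard : Cardinal.mk L ≤ Cardinal.mk (ℵ₁ : Cardinal.{0}).ord.ToType := by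
    rw [mk_toType, card_ord]
    exact hL
  obtain ⟨⟨g, hg⟩⟩ := hcard
  have hΩ : ∀ β : (ℵ₁ : Cardinal.{0}).ord.ToType, (Set.Iic β).Countable := by
    intro β
    have h1 : (Set.Iio β).Countable := by
      rw [← le_aleph0_iff_set_countable, ← lt_aleph_one_iff]
      have := mk_Iio_lt β (by simp)
      simpa using this
    rw [← Set.Iio_insert]
    exact h1.insert β
  obtain ⟨F⟩ := exists_filt hΩ g hg
  exact embedding_of_filt F

end Pool.Agent.Q16.LC
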