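import Pool.Agent.Q16.LC.Chain

/-!
# Almost disjoint traces and histories

For every level `β` we define a function `r β : ℕ → ℕ` such that `r β` differs early from the traces
of the levels of the members of `upl x`, for all but finitely many `x` of a given level
(`trace_sep`). The start `st x` of `x` is a number which is so large that before it the traces of
the levels of members of `upl x` have become different from those of finitely many other levels.
The history `H t α` of the level `α` at the time `t` records the trace and the type of finitely many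
elements of the level.
-/

set_option autoImplicit false
set_option linter.unusedSectionVars false

namespace Pool.Agent.Q16.LC

variable {L Ω : Type} [Lattice L] [BoundedOrder L] [WellFoundedLT L] [WellFoundedGT L]
  [LinearOrder Ω] [WellFoundedLT Ω] (F : Filt L Ω)

namespace Filt

open Classical in
/-- the element of level `α` with the number `i` -/
noncomputable def elt (α : Ω) (i : ℕ) : Option L :=
  if h : ∃ x, F.lev x = α ∧ F.idx x = i then some h.choose else none

lemma elt_self (x : L) : F.elt (F.lev x) (F.idx x) = some x := by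
  unfold elt
  have h : ∃ y, F.lev y = F.lev x ∧ F.idx y = F.idx x := ⟨x, rfl, rfl⟩
  rw [dif_pos h]
  exact congrArg some (F.inj _ _ h.choose_spec.1 h.choose_spec.2)

lemma elt_some {α : Ω} {i : ℕ} {x : L} (h : F.elt α i = some x) : F.lev x = α ∧ F.idx x = i := by
  unfold elt at h
  split_ifs at h with h1
  rw [← Option.some.inj h]
  exact h1.choose_spec

/-- the levels of the members of `upl x`, for the element `x` of level `α` with the number `j` -/
noncomputable def ulev (α : Ω) (j : ℕ) : List Ω :=
  match F.elt α j with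
  | none => []
  | some x => (F.upl x).map F.lev

/-- finitely many levels -/
noncomputable def U (β : Ω) (n : ℕ) : List Ω :=
  (List.range (n + 1)).flatMap fun k =>
    F.en β k :: (List.range (n + 2)).flatMap fun j => F.ulev (F.en β k) j

open Classical in
/-- the trace of the level `β` -/
noncomputable def r (β : Ω) : ℕ → ℕ :=
  (wellFounded_lt (α := Ω)).fix (C := fun _ => ℕ → ℕ)
    (fun β ih n => 1 + ((F.U β n).map fun γ => if h : γ < β then ih γ h n else 0).sum) β

open Classical in
lemma r_eq (β : Ω) (n : ℕ) :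
    F.r β n = 1 + ((F.U β n).map fun γ => if γ < β then F.r γ n else 0).sum := by
  unfold r
  rw [WellFounded.fix_eq]
  simp only [dite_eq_ite]

lemma r_lt {β γ : Ω} {n : ℕ} (h : γ ∈ F.U β n) (hlt : γ < β) : F.r γ n < F.r β n := by
  classical
  rw [F.r_eq β n]
  have h1 : (if γ < β then F.r γ n else 0) ≤
      ((F.U β n).map fun γ => if γ < β then F.r γ n else 0).sum := by
    apply List.le_sum_of_mem
    exact List.mem_map.2 ⟨γ, h, rfl⟩
  rw [if_pos hlt] at h1
  omega

lemma r_ne_of_lt {γ β : Ω} (h : γ < β) : ∃ n, F.r γ n ≠ F.r β n := by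
  obtain ⟨k, hk⟩ := F.en_surj β γ h.le
  refine ⟨k, (F.r_lt ?_ h).ne⟩
  unfold U
  rw [List.mem_flatMap]
  exact ⟨k, List.mem_range.2 (by omega), by rw [hk]; exact List.mem_cons_self⟩

lemma r_ne {γ β : Ω} (h : γ ≠ β) : ∃ n, F.r γ n ≠ F.r β n := by
  rcases lt_or_gt_of_ne h with h1 | h1
  · exact F.r_ne_of_lt h1
  · obtain ⟨n, hn⟩ := F.r_ne_of_lt h1
    exact ⟨n, hn.symm⟩

open Classical in
/-- a time at which the traces of the two levels have become different -/
noncomputable def Δ (γ β : Ω) : ℕ := if h : ∃ n, F.r γ n ≠ F.r β n then Nat.find h + 1 else 0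

lemma Δ_spec {γ β : Ω} (h : γ ≠ β) : ∃ n < F.Δ γ β, F.r γ n ≠ F.r β n := by
  classical
  have h1 := F.r_ne h
  unfold Δ
  rw [dif_pos h1]
  exact ⟨Nat.find h1, Nat.lt_succ_self _, Nat.find_spec h1⟩

/-- an auxiliary number -/
noncomputable def q (x : L) : ℕ :=
  F.idx x + 1 + ((List.range (F.idx x + 1)).map fun k =>
    ((F.upl x).map fun y => F.Δ (F.lev y) (F.en (F.lev x) k)).sum).sum

/-- the start of `x` -/
noncomputable def st (x : L) : ℕ := ((F.upl x).map F.q).sum

lemma q_le_st (x : L) : F.q x ≤ F.st x := by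
  unfold st
  apply List.le_sum_of_mem
  exact List.mem_map.2 ⟨x, self_mem_chain _ _ x, rfl⟩

lemma idx_lt_st (x : L) : F.idx x < F.st x := by
  have h := F.q_le_st x
  unfold q at h
  omega

lemma st_le {x y : L} (h : y ∈ F.upl x) : F.st y ≤ F.st x := by
  obtain ⟨l, hl⟩ := chain_suffix _ _ h
  have h1 : F.upl x = l ++ F.upl y := hl.symm
  unfold st
  rw [h1, List.map_append, List.sum_append]
  omega

/-- For all but finitely many elements `x` of the level `α` the trace of the level `β` differs,
before the start of `x`, from the traces of the levels of the members of `upl x`. -/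
lemma trace_sep (α β : Ω) : ∃ J, ∀ x, F.lev x = α → J ≤ F.idx x → ∀ y ∈ F.upl x, F.lev y ≠ β →
    ∃ n < F.st x, F.r (F.lev y) n ≠ F.r β n := by
  rcases lt_or_ge α β with h | h
  · obtain ⟨k, hk⟩ := F.en_surj β α h.le
    refine ⟨k + 1, fun x hx hj y hy _ => ⟨F.idx x - 1, ?_, ?_⟩⟩
    · have := F.idx_lt_st x
      omega
    · have h1 : F.lev y ≤ F.lev x := chain_lev_le _ _ hy
      refine (F.r_lt ?_ (h1.trans_lt (hx ▸ h))).ne
      unfold U
      rw [List.mem_flatMap]
      refine ⟨k, List.mem_range.2 (by omega), List.mem_cons_of_mem _ ?_⟩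
      rw [List.mem_flatMap]
      refine ⟨F.idx x, List.mem_range.2 (by omega), ?_⟩
      unfold ulev
      rw [hk, ← hx, F.elt_self x]
      exact List.mem_map.2 ⟨y, hy, rfl⟩
  · obtain ⟨k, hk⟩ := F.en_surj α β h
    refine ⟨k, fun x hx hj y hy hne => ?_⟩
    obtain ⟨n, hn, hn'⟩ := F.Δ_spec hne
    refine ⟨n, hn.trans_le ?_, hn'⟩
    refine le_trans ?_ (F.q_le_st x)
    unfold q
    have h1 : F.Δ (F.lev y) β ≤ ((F.upl x).map fun y => F.Δ (F.lev y) (F.en (F.lev x) k)).sum := by
      apply List.le_sum_of_mem
      refine List.mem_map.2 ⟨y, hy, ?_⟩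
      rw [hx, hk]
    have h2 : ((F.upl x).map fun y => F.Δ (F.lev y) (F.en (F.lev x) k)).sum ≤
        ((List.range (F.idx x + 1)).map fun k =>
          ((F.upl x).map fun y => F.Δ (F.lev y) (F.en (F.lev x) k)).sum).sum := by
      apply List.le_sum_of_mem
      exact List.mem_map.2 ⟨k, List.mem_range.2 (by omega), rfl⟩
    omega

/-- number and history of the level -/
noncomputable def ft (h : Ω → List ℕ) (y : L) : ℕ × List ℕ := (F.idx y, h (F.lev y))

open Classical in
/-- is `x` at most the element of level `α` with the number `j`? -/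
noncomputable def bit (α : Ω) (x : L) (j : ℕ) : Bool :=
  match F.elt α j with
  | none => false
  | some y => decide (x ≤ y)

/-- the information on the element `x` which is recorded at the time `s` -/
noncomputable def info (h : Ω → List ℕ) (s : ℕ) (x : L) :
    ℕ × List Bool × List (ℕ × List ℕ) × List (ℕ × List ℕ) :=
  (F.st x, (List.range (s + 1)).map (F.bit (F.lev x) x), (F.upl x).map (F.ft h),
    (F.dnl x).map (F.ft h))

/-- what is recorded at the time `s` in the history of the level `α` -/
noncomputable def val (h : Ω → List ℕ) (s : ℕ) (α : Ω) : ℕ :=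
  Encodable.encode (F.r α s, (List.range (s + 1)).map fun i => (F.elt α i).map (F.info h s))

/-- the history of the level `α` at the time `t` -/
noncomputable def H : ℕ → Ω → List ℕ
  | 0, _ => []
  | t + 1, α => H t α ++ [F.val (H t) t α]

lemma H_eq (t : ℕ) (α : Ω) :
    F.H t α = (List.range t).map fun s => F.val (F.H s) s α := by
  induction t with
  | zero => rfl
  | succ t ih =>
    rw [List.range_succ, List.map_append, ← ih]
    rfl

lemma H_val {t : ℕ} {α β : Ω} (h : F.H t α = F.H t β) {s : ℕ} (hs : s < t) :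
    F.val (F.H s) s α = F.val (F.H s) s β := by
  rw [F.H_eq, F.H_eq] at h
  exact List.map_inj_left.1 h s (List.mem_range.2 hs)

lemma H_mono {t : ℕ} {α β : Ω} (h : F.H t α = F.H t β) {s : ℕ} (hs : s ≤ t) :
    F.H s α = F.H s β := by
  rw [F.H_eq s α, F.H_eq s β]
  exact List.map_congr_left fun i hi => F.H_val h (by rw [List.mem_range] at hi; omega)

lemma H_trace {t : ℕ} {α β : Ω} (h : F.H t α = F.H t β) {s : ℕ} (hs : s < t) :
    F.r α s = F.r β s :=
  (Prod.mk.inj (Encodable.encode_injective (F.H_val h hs))).1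

/-- different levels have different histories, eventually -/
lemma H_sep {α β : Ω} (h : α ≠ β) : ∃ t0, ∀ t, t0 ≤ t → F.H t α ≠ F.H t β := by
  obtain ⟨n, hn⟩ := F.r_ne h
  exact ⟨n + 1, fun t ht he => hn (F.H_trace he (by omega))⟩

lemma H_info {t : ℕ} {α β : Ω} (h : F.H t α = F.H t β) {s : ℕ} (hs : s < t) {i : ℕ}
    (hi : i ≤ s) : (F.elt α i).map (F.info (F.H s) s) = (F.elt β i).map (F.info (F.H s) s) := by
  have h1 := (Prod.mk.inj (Encodable.encode_injective (F.H_val h hs))).2
  exact List.map_inj_left.1 h1 i (List.mem_range.2 (by omega))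

/-- The transfer of elements between two levels with the same history. -/
theorem transfer {t : ℕ} {x : L} {β : Ω} (h : F.H t (F.lev x) = F.H t β)
    (hi : F.idx x < t) : ∃ x', F.lev x' = β ∧ F.idx x' = F.idx x ∧ F.st x' = F.st x ∧
      (∀ s, F.idx x ≤ s → s < t → (F.upl x').map (F.ft (F.H s)) = (F.upl x).map (F.ft (F.H s)) ∧
        (F.dnl x').map (F.ft (F.H s)) = (F.dnl x).map (F.ft (F.H s))) ∧
      (∀ y, F.lev y = F.lev x → F.idx y < t → x ≤ y →
        ∃ y', F.lev y' = β ∧ F.idx y' = F.idx y ∧ x' ≤ y') := by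
  classical
  have key : ∀ s, F.idx x ≤ s → s < t → ∃ x', F.elt β (F.idx x) = some x' ∧
      F.info (F.H s) s x = F.info (F.H s) s x' := by
    intro s h1 h2
    have h3 := F.H_info h h2 h1
    rw [F.elt_self x, Option.map_some] at h3
    rcases h4 : F.elt β (F.idx x) with _ | x'
    · rw [h4] at h3
      simp at h3
    · refine ⟨x', rfl, ?_⟩
      rw [h4, Option.map_some] at h3
      exact Option.some.inj h3
  obtain ⟨x', hx', -⟩ := key (F.idx x) le_rfl hi
  have key' : ∀ s, F.idx x ≤ s → s < t → F.info (F.H s) s x = F.info (F.H s) s x' := by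
    intro s h1 h2
    obtain ⟨x'', hx'', h3⟩ := key s h1 h2
    rw [hx'] at hx''
    rw [Option.some.inj hx'']
    exact h3
  obtain ⟨e1, e2⟩ := F.elt_some hx'
  refine ⟨x', e1, e2, ?_, ?_, ?_⟩
  · exact ((Prod.mk.inj (key' _ le_rfl hi)).1).symm
  · intro s h1 h2
    have h3 := (Prod.mk.inj (Prod.mk.inj (key' s h1 h2)).2).2
    exact ⟨((Prod.mk.inj h3).1).symm, ((Prod.mk.inj h3).2).symm⟩
  · intro y hy hyt hxy
    have h3 := (Prod.mk.inj (Prod.mk.inj (key' (max (F.idx x) (F.idx y)) (le_max_left _ _)
      (max_lt hi hyt))).2).1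
    have h4 : F.bit (F.lev x) x (F.idx y) = F.bit (F.lev x') x' (F.idx y) :=
      List.map_inj_left.1 h3 _ (List.mem_range.2 (Nat.lt_succ_of_le (le_max_right _ _)))
    have h5 : F.bit (F.lev x) x (F.idx y) = true := by
      unfold bit
      rw [← hy, F.elt_self y]
      exact decide_eq_true hxy
    rw [h5] at h4
    unfold bit at h4
    rcases h6 : F.elt (F.lev x') (F.idx y) with _ | y'
    · rw [h6] at h4
      simp at h4
    · rw [h6] at h4
      obtain ⟨e3, e4⟩ := F.elt_some h6
      exact ⟨y', e3.trans e1, e4, of_decide_eq_true h4.symm⟩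

/-- the code of `x` at the time `t` -/
noncomputable def code (x : L) (t : ℕ) : List (ℕ × List ℕ) := (F.upl x).map (F.ft (F.H t))

end Filt

end Pool.Agent.Q16.LC
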