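import Pool.Agent.Q16.LC.Branch

/-!
# Closed monoids of transformations of a countable set

A state is a time together with a stack. To every `u` in the lattice we attach a closed monoid `M u`
of transformations of the set of states, generated by the maps `Bk k`, `Dr τ`, which do not depend
on `u`, and the maps `fz ζ` for the branches `ζ` of `u`.
-/

set_option autoImplicit false
set_option linter.unusedSectionVars false

namespace Pool.Agent.Q16.LC

/-! ### Closed monoids -/

section closed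

variable {X : Type}

/-- the maps generated by the set `S` -/
inductive Gen (S : Set (X → X)) : (X → X) → Prop
  | one : Gen S id
  | cons {g h : X → X} : g ∈ S → Gen S h → Gen S (g ∘ h)

lemma Gen.single {S : Set (X → X)} {g : X → X} (h : g ∈ S) : Gen S g := Gen.cons h Gen.one

lemma Gen.comp {S : Set (X → X)} {g h : X → X} (hg : Gen S g) (hh : Gen S h) :
    Gen S (g ∘ h) := by
  induction hg with
  | one => exact hh
  | cons h1 _ ih => exact (Gen.cons h1 ih :)

/-- `P` is a closed monoid of transformations of `X`. -/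
def IsCl (P : Set (X → X)) : Prop :=
  id ∈ P ∧ (∀ g ∈ P, ∀ h ∈ P, g ∘ h ∈ P) ∧
    ∀ g : X → X, (∀ Q : Finset X, ∃ h ∈ P, ∀ x ∈ Q, h x = g x) → g ∈ P

/-- the closed monoid generated by `S` -/
def Cl (S : Set (X → X)) : Set (X → X) :=
  {g | ∀ Q : Finset X, ∃ h, Gen S h ∧ ∀ x ∈ Q, h x = g x}

lemma Gen.mem_cl {S : Set (X → X)} {g : X → X} (h : Gen S g) : g ∈ Cl S :=
  fun _ => ⟨g, h, fun _ _ => rfl⟩

lemma cl_isCl (S : Set (X → X)) : IsCl (Cl S) := by
  classical
  refine ⟨Gen.one.mem_cl, ?_, ?_⟩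
  · intro g hg h hh Q
    obtain ⟨h', h1, h2⟩ := hh Q
    obtain ⟨g', g1, g2⟩ := hg (Q.image h)
    refine ⟨g' ∘ h', g1.comp h1, fun x hx => ?_⟩
    rw [Function.comp_apply, Function.comp_apply, h2 x hx]
    exact g2 _ (Finset.mem_image_of_mem h hx)
  · intro g hg Q
    obtain ⟨h, h1, h2⟩ := hg Q
    obtain ⟨h', h3, h4⟩ := h1 Q
    exact ⟨h', h3, fun x hx => (h4 x hx).trans (h2 x hx)⟩

lemma cl_le {S P : Set (X → X)} (hP : IsCl P) (h : S ⊆ P) : Cl S ⊆ P := by
  have h1 : ∀ g, Gen S g → g ∈ P := by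
    intro g hg
    induction hg with
    | one => exact hP.1
    | cons h1 _ ih => exact hP.2.1 _ (h h1) _ ih
  intro g hg
  refine hP.2.2 g fun Q => ?_
  obtain ⟨h', h2, h3⟩ := hg Q
  exact ⟨h', h1 _ h2, h3⟩

end closed

/-! ### States -/

/-- the symbols of the stack -/
inductive Sym
  | mark (n : ℕ)
  | tok (s : List ℕ)
  | dr (s : List ℕ)

/-- a time and a stack -/
abbrev St : Type := ℕ × List Sym

/-- the map which moves to the time `k`, if this is later -/
def Bk (k : ℕ) (p : St) : St := (max p.1 k, Sym.mark p.1 :: p.2)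

/-- the map which pushes the initial segment of the branch -/
def fz (ζ : ℕ → ℕ) (p : St) : St := (p.1, Sym.tok (pre ζ p.1) :: p.2)

/-- the map which pushes an initial segment of `s` -/
def Tk (s : List ℕ) (p : St) : St := (p.1, Sym.tok (s.take p.1) :: p.2)

variable {L Ω : Type} [Lattice L] [BoundedOrder L] [WellFoundedLT L] [WellFoundedGT L]
  [LinearOrder Ω] [WellFoundedLT Ω] (F : Filt L Ω)

namespace Filt

/-- The deduction of `τ` is possible at the state `p` and leads to `p'`. -/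
def Fire (τ : List ℕ) (p p' : St) : Prop :=
  ∃ s1 s2 n l, p.2 = Sym.tok s2 :: Sym.tok s1 :: Sym.mark n :: l ∧ n ≤ τ.length ∧ F.E s1 s2 τ ∧
    p' = (n, Sym.tok (τ.take n) :: l)

lemma Fire.unique {F : Filt L Ω} {τ : List ℕ} {p p' p'' : St} (h : F.Fire τ p p')
    (h' : F.Fire τ p p'') : p' = p'' := by
  obtain ⟨s1, s2, n, l, h1, -, -, rfl⟩ := h
  obtain ⟨s1', s2', n', l', h1', -, -, rfl⟩ := h'
  rw [h1] at h1'
  simp only [List.cons.injEq, Sym.tok.injEq, Sym.mark.injEq] at h1'
  rw [h1'.2.2.1, h1'.2.2.2]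

open Classical in
/-- the deduction of `τ` -/
noncomputable def Dr (τ : List ℕ) (p : St) : St :=
  if h : ∃ p', F.Fire τ p p' then h.choose else (p.1, Sym.dr τ :: p.2)

variable {F} in
lemma Fire.dr_eq {τ : List ℕ} {p p' : St} (h : F.Fire τ p p') : F.Dr τ p = p' := by
  have h1 : ∃ p', F.Fire τ p p' := ⟨p', h⟩
  unfold Dr
  rw [dif_pos h1]
  exact h1.choose_spec.unique h

lemma dr_neg {τ : List ℕ} {p : St} (h : ¬ ∃ p', F.Fire τ p p') :
    F.Dr τ p = (p.1, Sym.dr τ :: p.2) := by
  unfold Dr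
  rw [dif_neg h]

/-- the generators -/
def gens (u : L) : Set (St → St) :=
  {g | (∃ k, g = Bk k) ∨ (∃ ζ, F.K u ζ ∧ g = fz ζ) ∨ ∃ τ, g = F.Dr τ}

/-- the closed monoid attached to `u` -/
def M (u : L) : Set (St → St) := Cl (F.gens u)

lemma M_isCl (u : L) : IsCl (F.M u) := cl_isCl _

lemma gens_mono {u v : L} (h : u ≤ v) : F.gens u ⊆ F.gens v := by
  rintro g (h1 | ⟨ζ, hζ, h1⟩ | h1)
  · exact Or.inl h1
  · exact Or.inr (Or.inl ⟨ζ, F.K_mono h hζ, h1⟩)
  · exact Or.inr (Or.inr h1)

lemma gens_sub (u : L) : F.gens u ⊆ F.M u := fun _ hg => (Gen.single hg).mem_cl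

lemma M_mono {u v : L} (h : u ≤ v) : F.M u ⊆ F.M v :=
  cl_le (F.M_isCl v) ((F.gens_mono h).trans (F.gens_sub v))

/-! ### The order -/

/-- all tokens belong to the tree of `u` -/
def Good (u : L) (p : St) : Prop := ∀ s, Sym.tok s ∈ p.2 → F.Tp u s

lemma good_gens {u : L} {g : St → St} (hg : g ∈ F.gens u) {p : St} (hp : F.Good u p) :
    F.Good u (g p) := by
  rcases hg with ⟨k, rfl⟩ | ⟨ζ, hζ, rfl⟩ | ⟨τ, rfl⟩
  · intro s hs
    rcases List.mem_cons.1 hs with h | h
    · cases h
    · exact hp s h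
  · intro s hs
    rcases List.mem_cons.1 hs with h | h
    · rw [Sym.tok.inj h]
      exact Or.inl (F.T_pre hζ _)
    · exact hp s h
  · by_cases h : ∃ p', F.Fire τ p p'
    · obtain ⟨p', s1, s2, n, l, h1, h2, h3, h4⟩ := h
      have h5 : F.Fire τ p p' := ⟨s1, s2, n, l, h1, h2, h3, h4⟩
      rw [h5.dr_eq, h4]
      intro s hs
      rcases List.mem_cons.1 hs with h | h
      · rw [Sym.tok.inj h]
        refine F.Tp_take (h3 u (hp s1 ?_) (hp s2 ?_)) n
        · rw [h1]
          simp
        · rw [h1]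
          simp
      · refine hp s ?_
        rw [h1]
        simp only [List.mem_cons]
        exact Or.inr (Or.inr (Or.inr h))
    · rw [F.dr_neg h]
      intro s hs
      rcases List.mem_cons.1 hs with h | h
      · cases h
      · exact hp s h

lemma good_gen {u : L} {g : St → St} (hg : Gen (F.gens u) g) {p : St} (hp : F.Good u p) :
    F.Good u (g p) := by
  induction hg with
  | one => exact hp
  | cons h1 _ ih => exact F.good_gens h1 ih

lemma good_M {u : L} {g : St → St} (hg : g ∈ F.M u) {p : St} (hp : F.Good u p) :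
    F.Good u (g p) := by
  obtain ⟨h, h1, h2⟩ := hg {p}
  rw [← h2 p (Finset.mem_singleton_self p)]
  exact F.good_gen h1 hp

lemma le_of_M_sub {u v : L} (h : F.M u ⊆ F.M v) : u ≤ v := by
  apply F.oo
  intro n
  have h1 : fz (F.c u) ∈ F.M v := h (F.gens_sub u (Or.inr (Or.inl ⟨_, F.c_mem u, rfl⟩)))
  have h2 : F.Good v ((n, []) : St) := by
    intro s hs
    cases hs
  exact F.good_M h1 h2 _ List.mem_cons_self

/-! ### Joins -/

lemma M_sup {u v : L} {P : Set (St → St)} (hP : IsCl P) (hu : F.M u ⊆ P) (hv : F.M v ⊆ P) :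
    F.M (u ⊔ v) ⊆ P := by
  refine cl_le hP ?_
  rintro g (h1 | ⟨ζ, hζ, rfl⟩ | h1)
  · exact hu (F.gens_sub u (Or.inl h1))
  · refine hP.2.2 _ fun Q => ?_
    obtain ⟨M, hM⟩ := F.gg u v (Q.sup Prod.fst)
    have b1 : Bk (M + Q.sup Prod.fst) ∈ P := hu (F.gens_sub u (Or.inl ⟨_, rfl⟩))
    have b2 : fz (F.c u) ∈ P := hu (F.gens_sub u (Or.inr (Or.inl ⟨_, F.c_mem u, rfl⟩)))
    have b3 : fz (F.c v) ∈ P := hv (F.gens_sub v (Or.inr (Or.inl ⟨_, F.c_mem v, rfl⟩)))
    have b4 : F.Dr (pre ζ (Q.sup Prod.fst)) ∈ P :=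
      hu (F.gens_sub u (Or.inr (Or.inr ⟨_, rfl⟩)))
    refine ⟨F.Dr (pre ζ (Q.sup Prod.fst)) ∘ (fz (F.c v) ∘ (fz (F.c u) ∘
      Bk (M + Q.sup Prod.fst))), hP.2.1 _ b4 _ (hP.2.1 _ b3 _ (hP.2.1 _ b2 _ b1)), ?_⟩
    intro q hq
    have hn : q.1 ≤ Q.sup Prod.fst := Finset.le_sup (f := Prod.fst) hq
    have hk : max q.1 (M + Q.sup Prod.fst) = M + Q.sup Prod.fst := max_eq_right (by omega)
    simp only [Function.comp_apply]
    have e : fz (F.c v) (fz (F.c u) (Bk (M + Q.sup Prod.fst) q)) =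
        (M + Q.sup Prod.fst, Sym.tok (pre (F.c v) (M + Q.sup Prod.fst)) ::
          Sym.tok (pre (F.c u) (M + Q.sup Prod.fst)) :: Sym.mark q.1 :: q.2) := by
      unfold fz Bk
      simp only [hk]
    rw [e]
    have hf : F.Fire (pre ζ (Q.sup Prod.fst)) (M + Q.sup Prod.fst,
        Sym.tok (pre (F.c v) (M + Q.sup Prod.fst)) ::
          Sym.tok (pre (F.c u) (M + Q.sup Prod.fst)) :: Sym.mark q.1 :: q.2)
        (q.1, Sym.tok ((pre ζ (Q.sup Prod.fst)).take q.1) :: q.2) :=
      ⟨_, _, _, _, rfl, by rw [pre_length]; exact hn, hM ζ hζ _ (by omega), rfl⟩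
    rw [hf.dr_eq, pre_take ζ hn]
    rfl
  · exact hu (F.gens_sub u (Or.inr (Or.inr h1)))

/-! ### Meets -/

end Filt

/-- the letters of a reduced word -/
inductive Letter
  | B (k : ℕ)
  | T (s : List ℕ)
  | D (s : List ℕ)

namespace Filt

/-- the action of a letter -/
noncomputable def step : Letter → St → St
  | Letter.B k => Bk k
  | Letter.T s => Tk s
  | Letter.D s => F.Dr s

/-- the action of a word -/
noncomputable def act : List Letter → St → St
  | [], p => p
  | a :: R, p => F.step a (act R p)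

end Filt

/-- The reduced word is recorded by the state of the probe. -/
inductive Rep (m0 : ℕ) : List Letter → St → Prop
  | nil : Rep m0 [] (m0, [])
  | B {R : List Letter} {p : St} (k : ℕ) : Rep m0 R p → Rep m0 (Letter.B k :: R) (Bk k p)
  | T {R : List Letter} {p : St} (s : List ℕ) : Rep m0 R p → s.length = p.1 →
      Rep m0 (Letter.T s :: R) (p.1, Sym.tok s :: p.2)
  | D {R : List Letter} {p : St} (s : List ℕ) : Rep m0 R p →
      Rep m0 (Letter.D s :: R) (p.1, Sym.dr s :: p.2)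

lemma Rep.le {m0 : ℕ} {R : List Letter} {p : St} (h : Rep m0 R p) : m0 ≤ p.1 := by
  induction h with
  | nil => exact le_rfl
  | B k _ ih => exact ih.trans (le_max_left _ _)
  | T s _ _ ih => exact ih
  | D s _ ih => exact ih

lemma Rep.tok_mem {m0 : ℕ} {R : List Letter} {p : St} (h : Rep m0 R p) {s : List ℕ}
    (hs : Letter.T s ∈ R) : Sym.tok s ∈ p.2 ∧ m0 ≤ s.length := by
  induction h with
  | nil => cases hs
  | B k _ ih =>
    rcases List.mem_cons.1 hs with h1 | h1
    · cases h1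
    · exact ⟨List.mem_cons_of_mem _ (ih h1).1, (ih h1).2⟩
  | T s' h0 hl ih =>
    rcases List.mem_cons.1 hs with h1 | h1
    · cases h1
      exact ⟨List.mem_cons_self, hl ▸ h0.le⟩
    · exact ⟨List.mem_cons_of_mem _ (ih h1).1, (ih h1).2⟩
  | D s' _ ih =>
    rcases List.mem_cons.1 hs with h1 | h1
    · cases h1
    · exact ⟨List.mem_cons_of_mem _ (ih h1).1, (ih h1).2⟩

lemma Rep.inv_tok {m0 : ℕ} {R : List Letter} {m : ℕ} {s : List ℕ} {l : List Sym}
    (h : Rep m0 R (m, Sym.tok s :: l)) :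
    ∃ R', R = Letter.T s :: R' ∧ Rep m0 R' (m, l) ∧ s.length = m := by
  generalize hp : ((m, Sym.tok s :: l) : St) = p at h
  cases h with
  | nil => cases hp
  | B k h1 => cases hp
  | @T R' p s' h1 h2 =>
    cases hp
    exact ⟨R', rfl, h1, h2⟩
  | D s' h1 => cases hp

lemma Rep.inv_mark {m0 : ℕ} {R : List Letter} {m n : ℕ} {l : List Sym}
    (h : Rep m0 R (m, Sym.mark n :: l)) :
    ∃ k R', R = Letter.B k :: R' ∧ Rep m0 R' (n, l) := by
  generalize hp : ((m, Sym.mark n :: l) : St) = p at h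
  cases h with
  | nil => cases hp
  | @B R' p k h1 =>
    cases hp
    exact ⟨k, R', rfl, h1⟩
  | T s' h1 h2 => cases hp
  | D s' h1 => cases hp

/-- the time and all marks are at most `m` -/
def Bd (m : ℕ) (p : St) : Prop := p.1 ≤ m ∧ ∀ n, Sym.mark n ∈ p.2 → n ≤ m

lemma Bd.mono {m m' : ℕ} {p : St} (h : Bd m p) (hm : m ≤ m') : Bd m' p :=
  ⟨h.1.trans hm, fun n hn => (h.2 n hn).trans hm⟩

namespace Filt

lemma bd_act {m0 : ℕ} {R : List Letter} {p : St} (h : Rep m0 R p) {q : St} (hq : Bd m0 q) :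
    Bd p.1 (F.act R q) := by
  induction h with
  | nil => exact hq
  | B k _ ih =>
    refine ⟨max_le_max ih.1 le_rfl, fun n hn => ?_⟩
    rcases List.mem_cons.1 hn with h1 | h1
    · rw [Sym.mark.inj h1]
      exact ih.1.trans (le_max_left _ _)
    · exact (ih.2 n h1).trans (le_max_left _ _)
  | T s _ _ ih =>
    refine ⟨ih.1, fun n hn => ?_⟩
    rcases List.mem_cons.1 hn with h1 | h1
    · cases h1
    · exact ih.2 n h1
  | @D R p s _ ih =>
    change Bd p.1 (F.Dr s (F.act R q))
    by_cases h : ∃ p', F.Fire s (F.act R q) p'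
    · obtain ⟨p', s1, s2, n, l, h1, h2, h3, h4⟩ := h
      have h5 : F.Fire s (F.act R q) p' := ⟨s1, s2, n, l, h1, h2, h3, h4⟩
      rw [h5.dr_eq, h4]
      refine ⟨ih.2 n ?_, fun n' hn' => ih.2 n' ?_⟩
      · rw [h1]
        simp
      · rw [h1]
        rcases List.mem_cons.1 hn' with h6 | h6
        · cases h6
        · simp only [List.mem_cons]
          exact Or.inr (Or.inr (Or.inr h6))
    · rw [F.dr_neg h]
      refine ⟨ih.1, fun n' hn' => ?_⟩
      rcases List.mem_cons.1 hn' with h1 | h1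
      · cases h1
      · exact ih.2 n' h1

/-- deduction symbols are never removed -/
lemma dr_mem_gens {u : L} {g : St → St} (hg : g ∈ F.gens u) {p : St} {τ : List ℕ}
    (h : Sym.dr τ ∈ p.2) : Sym.dr τ ∈ (g p).2 := by
  rcases hg with ⟨k, rfl⟩ | ⟨ζ, hζ, rfl⟩ | ⟨s, rfl⟩
  · exact List.mem_cons_of_mem _ h
  · exact List.mem_cons_of_mem _ h
  · by_cases hf : ∃ p', F.Fire s p p'
    · obtain ⟨p', s1, s2, n, l, h1, h2, h3, h4⟩ := hf
      have h5 : F.Fire s p p' := ⟨s1, s2, n, l, h1, h2, h3, h4⟩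
      rw [h5.dr_eq, h4]
      rw [h1] at h
      simp only [List.mem_cons, reduceCtorEq, false_or] at h
      exact List.mem_cons_of_mem _ h
    · rw [F.dr_neg hf]
      exact List.mem_cons_of_mem _ h

/-- The simulation of a word by a reduced word. -/
lemma simulate {u : L} {m0 : ℕ} {Q : Finset St} (hQ : ∀ q ∈ Q, Bd m0 q) {W : St → St}
    (hW : Gen (F.gens u) W) :
    (∀ q ∈ Q, ∀ τ, Sym.dr τ ∈ (W q).2 → τ.length < m0) →
      ∃ R, Rep m0 R (W (m0, [])) ∧ ∀ q ∈ Q, F.act R q = W q := by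
  induction hW with
  | one => exact fun _ => ⟨[], Rep.nil, fun q _ => rfl⟩
  | @cons g h hg _ ih =>
    intro hdr
    obtain ⟨R, hR, hRq⟩ := ih fun q hq τ hτ => hdr q hq τ (F.dr_mem_gens hg hτ)
    simp only [Function.comp_apply] at hdr ⊢
    generalize h (m0, []) = P at hR ⊢
    rcases hg with ⟨k, rfl⟩ | ⟨ζ, hζ, rfl⟩ | ⟨τ, rfl⟩
    · refine ⟨Letter.B k :: R, Rep.B k hR, fun q hq => ?_⟩
      change Bk k (F.act R q) = _
      rw [hRq q hq]
    · refine ⟨Letter.T (pre ζ P.1) :: R, Rep.T _ hR (pre_length _ _), fun q hq => ?_⟩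
      change Tk (pre ζ P.1) (F.act R q) = _
      have h1 := (F.bd_act hR (hQ q hq)).1
      rw [hRq q hq] at h1 ⊢
      unfold Tk fz
      rw [pre_take ζ h1]
    · by_cases hf : ∃ p', F.Fire τ P p'
      · obtain ⟨p', s1, s2, n, l, h1, h2, h3, h4⟩ := hf
        have h5 : F.Fire τ P p' := ⟨s1, s2, n, l, h1, h2, h3, h4⟩
        obtain ⟨m, l0⟩ := P
        simp only at h1
        subst h1
        obtain ⟨R1, rfl, hR1, -⟩ := hR.inv_tok
        obtain ⟨R2, rfl, hR2, -⟩ := hR1.inv_tok
        obtain ⟨k, R3, rfl, hR3⟩ := hR2.inv_mark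
        refine ⟨Letter.T (τ.take n) :: R3, ?_, fun q hq => ?_⟩
        · rw [h5.dr_eq, h4]
          refine Rep.T _ hR3 ?_
          rw [List.length_take]
          exact min_eq_left h2
        · have h6 := (F.bd_act hR3 (hQ q hq)).1
          have h7 := hRq q hq
          have h8 : h q = (max (F.act R3 q).1 k,
              Sym.tok (s2.take (max (F.act R3 q).1 k)) ::
              Sym.tok (s1.take (max (F.act R3 q).1 k)) ::
              Sym.mark (F.act R3 q).1 :: (F.act R3 q).2) := h7.symm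
          change Tk (τ.take n) (F.act R3 q) = _
          by_cases hf' : ∃ p', F.Fire τ (h q) p'
          · obtain ⟨p'', t1, t2, n', l', g1, g2, g3, g4⟩ := hf'
            have g5 : F.Fire τ (h q) p'' := ⟨t1, t2, n', l', g1, g2, g3, g4⟩
            rw [g5.dr_eq, g4]
            rw [h8] at g1
            simp only [List.cons.injEq, Sym.tok.injEq, Sym.mark.injEq] at g1
            rw [← g1.2.2.1, ← g1.2.2.2]
            unfold Tk
            rw [List.take_take, min_eq_left h6]
          · exfalso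
            have g1 := hdr q hq τ (by rw [F.dr_neg hf']; exact List.mem_cons_self)
            have g2 : m0 ≤ n := hR3.le
            omega
      · refine ⟨Letter.D τ :: R, ?_, fun q hq => ?_⟩
        · rw [F.dr_neg hf]
          exact Rep.D _ hR
        · change F.Dr τ (F.act R q) = _
          rw [hRq q hq]

/-- The reduced word is realised by generators over `w` if its tokens belong to the tree
of `w`. -/
lemma realise {w : L} {m0 : ℕ} {R : List Letter} {P : St} (hR : Rep m0 R P) :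
    (∀ s, Letter.T s ∈ R → F.T w s) →
      ∃ h, Gen (F.gens w) h ∧ ∀ q, Bd m0 q → h q = F.act R q := by
  induction hR with
  | nil => exact fun _ => ⟨id, Gen.one, fun q _ => rfl⟩
  | @B R p k _ ih =>
    intro hs
    obtain ⟨h, h1, h2⟩ := ih fun s hs' => hs s (List.mem_cons_of_mem _ hs')
    refine ⟨Bk k ∘ h, Gen.cons (Or.inl ⟨k, rfl⟩) h1, fun q hq => ?_⟩
    rw [Function.comp_apply, h2 q hq]
    rfl
  | @T R p s hR' hl ih =>
    intro hs
    obtain ⟨h, h1, h2⟩ := ih fun s hs' => hs s (List.mem_cons_of_mem _ hs')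
    obtain ⟨ζ, hζ, e⟩ := hs s List.mem_cons_self
    refine ⟨fz ζ ∘ h, Gen.cons (Or.inr (Or.inl ⟨ζ, hζ, rfl⟩)) h1, fun q hq => ?_⟩
    rw [Function.comp_apply, h2 q hq]
    change _ = Tk s (F.act R q)
    have h3 := (F.bd_act hR' hq).1
    unfold Tk fz
    rw [e, pre_take ζ (by omega)]
  | @D R p s _ ih =>
    intro hs
    obtain ⟨h, h1, h2⟩ := ih fun s hs' => hs s (List.mem_cons_of_mem _ hs')
    refine ⟨F.Dr s ∘ h, Gen.cons (Or.inr (Or.inr ⟨s, rfl⟩)) h1, fun q hq => ?_⟩
    rw [Function.comp_apply, h2 q hq]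
    rfl

lemma exists_bd (Q : Finset St) : ∃ m, ∀ q ∈ Q, Bd m q := by
  classical
  induction Q using Finset.induction_on with
  | empty => exact ⟨0, fun q hq => absurd hq (Finset.notMem_empty q)⟩
  | insert a Q hna ih =>
    obtain ⟨m, hm⟩ := ih
    have h1 : ∃ m', Bd m' a := by
      clear hna
      obtain ⟨n, l⟩ := a
      induction l with
      | nil => exact ⟨n, le_rfl, fun k hk => by cases hk⟩
      | cons b l ihl =>
        obtain ⟨m', h1, h2⟩ := ihl
        cases b with
        | mark k =>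
          refine ⟨max m' k, h1.trans (le_max_left _ _), fun j hj => ?_⟩
          rcases List.mem_cons.1 hj with h3 | h3
          · rw [Sym.mark.inj h3]
            exact le_max_right _ _
          · exact (h2 j h3).trans (le_max_left _ _)
        | tok s =>
          refine ⟨m', h1, fun j hj => ?_⟩
          rcases List.mem_cons.1 hj with h3 | h3
          · cases h3
          · exact h2 j h3
        | dr s =>
          refine ⟨m', h1, fun j hj => ?_⟩
          rcases List.mem_cons.1 hj with h3 | h3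
          · cases h3
          · exact h2 j h3
    obtain ⟨m', hm'⟩ := h1
    refine ⟨max m m', fun q hq => ?_⟩
    rcases Finset.mem_insert.1 hq with h2 | h2
    · rw [h2]
      exact hm'.mono (le_max_right _ _)
    · exact (hm q h2).mono (le_max_left _ _)

lemma exists_dr (Q : Finset St) : ∃ m, ∀ q ∈ Q, ∀ τ, Sym.dr τ ∈ q.2 → τ.length < m := by
  classical
  induction Q using Finset.induction_on with
  | empty => exact ⟨0, fun q hq => absurd hq (Finset.notMem_empty q)⟩
  | insert a Q hna ih =>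
    obtain ⟨m, hm⟩ := ih
    have h1 : ∃ m', ∀ τ, Sym.dr τ ∈ a.2 → τ.length < m' := by
      clear hna
      obtain ⟨n, l⟩ := a
      induction l with
      | nil => exact ⟨0, fun k hk => by cases hk⟩
      | cons b l ihl =>
        obtain ⟨m', h2⟩ := ihl
        cases b with
        | mark k =>
          refine ⟨m', fun j hj => ?_⟩
          rcases List.mem_cons.1 hj with h3 | h3
          · cases h3
          · exact h2 j h3
        | tok s =>
          refine ⟨m', fun j hj => ?_⟩
          rcases List.mem_cons.1 hj with h3 | h3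
          · cases h3
          · exact h2 j h3
        | dr s =>
          refine ⟨m' + s.length + 1, fun j hj => ?_⟩
          rcases List.mem_cons.1 hj with h3 | h3
          · rw [Sym.dr.inj h3]
            omega
          · have := h2 j h3
            omega
    obtain ⟨m', hm'⟩ := h1
    refine ⟨m + m', fun q hq τ hτ => ?_⟩
    rcases Finset.mem_insert.1 hq with h2 | h2
    · rw [h2] at hτ
      have := hm' τ hτ
      omega
    · have := hm q h2 τ hτ
      omega

theorem M_inf (u v : L) : F.M (u ⊓ v) = F.M u ∩ F.M v := by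
  classical
  apply Set.Subset.antisymm
  · exact Set.subset_inter (F.M_mono inf_le_left) (F.M_mono inf_le_right)
  rintro G ⟨hGu, hGv⟩ Q
  obtain ⟨n0, hn0⟩ := F.ss u v
  obtain ⟨m1, hm1⟩ := exists_bd Q
  obtain ⟨m2, hm2⟩ := exists_dr (Q.image G)
  obtain ⟨m0, hm0⟩ : ∃ m0, m0 = n0 + m1 + m2 + F.kk u + F.kk v + 1 := ⟨_, rfl⟩
  obtain ⟨W, hW, hWq⟩ := hGu (insert (m0, []) Q)
  have hQ : ∀ q ∈ Q, Bd m0 q := fun q hq => (hm1 q hq).mono (by omega)
  obtain ⟨R, hR, hRq⟩ := F.simulate hQ hW (by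
    intro q hq τ hτ
    rw [hWq q (Finset.mem_insert_of_mem hq)] at hτ
    have := hm2 (G q) (Finset.mem_image_of_mem G hq) τ hτ
    omega)
  rw [hWq _ (Finset.mem_insert_self _ _)] at hR
  have hgood : ∀ w : L, F.Good w ((m0, []) : St) := by
    intro w s hs
    cases hs
  obtain ⟨h, h1, h2⟩ := F.realise (w := u ⊓ v) hR (by
    intro s hs
    obtain ⟨g1, g2⟩ := hR.tok_mem hs
    have g3 : F.T u s := by
      rcases F.good_M hGu (hgood u) s g1 with h | h
      · exact h
      · omega
    have g4 : F.T v s := by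
      rcases F.good_M hGv (hgood v) s g1 with h | h
      · exact h
      · omega
    exact hn0 s (by omega) g3 g4)
  refine ⟨h, h1, fun q hq => ?_⟩
  rw [h2 q (hQ q hq), hRq q hq, hWq q (Finset.mem_insert_of_mem hq)]

lemma M_injective : Function.Injective F.M := by
  intro u v h
  exact le_antisymm (F.le_of_M_sub h.subset) (F.le_of_M_sub h.symm.subset)

end Filt

end Pool.Agent.Q16.LC
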